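import Pool.Agent.Run7.h620.PX.Ax
import Pool.Agent.Run7.h620.PD.Gc

set_option autoImplicit false

/-! A good residue class, digits in given sets. -/

namespace Pool.Agent.Run7.h620.PX

open Finset Polynomial Filter Pool.Agent.Run7.h620.PD

lemma UX_ne (b : ℕ) (hb : 2 ≤ b) : UX b ≠ 0 := by
  unfold UX
  apply mul_ne_zero
  · have : (2 : ℤ) ≤ b := by exact_mod_cast hb
    nlinarith
  · have := Dl_pos b
    exact_mod_cast this.ne'

lemma acX (b : ℕ) (hb : 2 ≤ b) (p : ℕ) (hp : p.Prime) (δ : ℝ) (hδ : 0 < δ) :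
    ∃ m : ℕ, ∀ᶠ K : ℕ in atTop, ∀ A : ℕ → Finset ℕ, Ok b A → ∀ n₀ r : ℤ,
      cnt (fam A ((K - 2) / 2)) (vd b K ((K - 2) / 2) n₀) (p ^ m) r ≤ δ * (XX A ((K - 2) / 2) : ℝ) := by
  by_cases hpb : p ∣ b
  · have hb1 : (0 : ℝ) < b := by
      have : 0 < b := by omega
      exact_mod_cast this
    obtain ⟨t, ht⟩ := exists_pow_lt_of_lt_one hδ (show (1 - 1 / (b : ℝ)) < 1 by
      have : 0 < 1 / (b : ℝ) := by positivity
      linarith)
    refine ⟨b * b ^ (2 * b * t), ?_⟩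
    filter_upwards [eventually_ge_atTop (2 * (2 * b * t) + 4)] with K hK A hA n₀ r
    have h1 := acX_dvd b K ((K - 2) / 2) n₀ p (b * b ^ (2 * b * t)) t A hA hb hp hpb
      (Nat.lt_pow_self hp.one_lt) (by omega) (by omega) r
    refine h1.trans ?_
    exact mul_le_mul_of_nonneg_right ht.le (Nat.cast_nonneg _)
  · have hU0 : UX b ≠ 0 := UX_ne b hb
    have hU1 : 0 < (UX b).natAbs := Int.natAbs_pos.2 hU0
    obtain ⟨u, hu⟩ : ∃ u : ℝ, u = ((UX b).natAbs : ℝ) := ⟨_, rfl⟩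
    have hu1 : 0 < u := by rw [hu]; exact_mod_cast hU1
    have hy0 : 0 < yX b 1 := yX_pos b 1 (by omega) le_rfl
    have hy1 : yX b 1 < 1 := yX_lt b 1 (by omega) le_rfl
    obtain ⟨m, hm⟩ := exists_pow_lt_of_lt_one (show 0 < δ / (2 * u) by positivity) (show (1 / 2 : ℝ) < 1 by norm_num)
    obtain ⟨C, hC⟩ := exists_pow_lt_of_lt_one (show 0 < δ / 2 by positivity) hy1
    refine ⟨m, ?_⟩
    filter_upwards [eventually_ge_atTop (2 * (p ^ m * C) + 10)] with K hK A hA n₀ r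
    have h1 := acX_cop (fam A ((K - 2) / 2)) (vd b K ((K - 2) / 2) n₀) b (XX A ((K - 2) / 2)) (yX b 1) (UX b)
      (K - 1 - (K - 2) / 2) ((K - 2) / 2 - 1) (p ^ m) (p ^ m) C
      (fourX A b K ((K - 2) / 2) 1 (by omega) le_rfl (by omega) (by omega) hA n₀) (Nat.cast_nonneg _) hy0 hy1 hU0
      (Nat.pow_pos hp.pos) (Nat.Coprime.pow_left _ ((Nat.Prime.coprime_iff_not_dvd hp).2 hpb))
      ((Nat.lt_two_pow_self).le.trans (Nat.pow_le_pow_left hb _)) (by omega) r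
    refine h1.trans ?_
    rw [mul_comm, ← hu]
    apply mul_le_mul_of_nonneg_right _ (Nat.cast_nonneg _)
    have h2 : u / ((p ^ m : ℕ) : ℝ) ≤ δ / 2 := by
      have h3 : (2 : ℝ) ^ m ≤ ((p ^ m : ℕ) : ℝ) := by
        exact_mod_cast Nat.pow_le_pow_left hp.two_le m
      have h4 : u / ((p ^ m : ℕ) : ℝ) ≤ u / 2 ^ m := by gcongr
      have h5 : u / 2 ^ m = u * (1 / 2) ^ m := by
        rw [one_div, inv_pow]
        rfl
      have h6 : u * (1 / 2 : ℝ) ^ m ≤ u * (δ / (2 * u)) := by gcongr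
      have h7 : u * (δ / (2 * u)) = δ / 2 := by field_simp
      linarith
    linarith

open Classical in
theorem goodX (b : ℕ) (hb : 2 ≤ b) (N d : ℕ) :
    ∃ M m : ℕ, 0 < M ∧ (∀ p : ℕ, p.Prime → p ∣ M → p ≤ N) ∧ (∀ p : ℕ, p.Prime → p ≤ N → p ^ m ∣ M) ∧
      ∀ᶠ K : ℕ in atTop, ∀ A : ℕ → Finset ℕ, Ok b A → ∀ (n₀ : ℤ) (R : ℕ → Finset ℤ), (∀ p, (R p).card ≤ d) → ∃ s₀ : ℤ,
        (XX A ((K - 2) / 2) : ℝ) / (2 * M) ≤ cnt (fam A ((K - 2) / 2)) (vd b K ((K - 2) / 2) n₀) M s₀ ∧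
        ∀ p : ℕ, p.Prime → p ≤ N → ∀ r ∈ R p, ¬ ((p ^ m : ℕ) : ℤ) ∣ s₀ - r := by
  set Ps := (Icc 1 N).filter Nat.Prime with hPs
  set δ : ℝ := 1 / (2 * (N + 1) * (d + 1)) with hδ
  have hδ0 : 0 < δ := by positivity
  have h1 : ∀ p : ℕ, ∃ m : ℕ, p.Prime → ∀ᶠ K : ℕ in atTop, ∀ A : ℕ → Finset ℕ, Ok b A → ∀ n₀ r : ℤ,
      cnt (fam A ((K - 2) / 2)) (vd b K ((K - 2) / 2) n₀) (p ^ m) r ≤ δ * (XX A ((K - 2) / 2) : ℝ) := by
    intro p
    by_cases hp : p.Prime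
    · obtain ⟨m, hm⟩ := acX b hb p hp δ hδ0
      exact ⟨m, fun _ => hm⟩
    · exact ⟨0, fun h => absurd h hp⟩
  choose m₀ hm using h1
  set V : ℕ := ∑ p ∈ Ps, m₀ p with hV
  have hVle : ∀ p ∈ Ps, m₀ p ≤ V := fun p hp => single_le_sum (fun _ _ => Nat.zero_le _) hp
  set M : ℕ := ∏ p ∈ Ps, p ^ V with hM
  have hM0 : 0 < M := prod_pos fun p hp => Nat.pow_pos (mem_filter.1 hp).2.pos
  have hMr : (0 : ℝ) < M := by exact_mod_cast hM0
  have hmem : ∀ p : ℕ, p.Prime → p ≤ N → p ∈ Ps := by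
    intro p hp hpN
    rw [hPs, mem_filter, mem_Icc]
    exact ⟨⟨hp.one_lt.le, hpN⟩, hp⟩
  refine ⟨M, V, hM0, ?_, ?_, ?_⟩
  · intro p hp hpM
    rw [hM, Prime.dvd_finsetProd_iff hp.prime] at hpM
    obtain ⟨q, hq, hpq⟩ := hpM
    have hq' := mem_filter.1 hq
    have := (Nat.prime_dvd_prime_iff_eq hp hq'.2).1 (hp.dvd_of_dvd_pow hpq)
    rw [this]
    exact (mem_Icc.1 hq'.1).2
  · intro p hp hpN
    exact Finset.dvd_prod_of_mem (fun p => p ^ V) (hmem p hp hpN)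
  · have h3 : ∀ᶠ K : ℕ in atTop, ∀ p ∈ Ps, ∀ A : ℕ → Finset ℕ, Ok b A → ∀ n₀ r : ℤ,
        cnt (fam A ((K - 2) / 2)) (vd b K ((K - 2) / 2) n₀) (p ^ m₀ p) r ≤ δ * (XX A ((K - 2) / 2) : ℝ) :=
      (eventually_all_finset Ps).2 fun p hp => hm p (mem_filter.1 hp).2
    filter_upwards [h3] with K h3 A hA n₀ R hR
    obtain ⟨H, hH⟩ : ∃ H : ℕ, H = (K - 2) / 2 := ⟨_, rfl⟩
    rw [← hH] at h3 ⊢
    obtain ⟨XH, hXH⟩ : ∃ XH : ℝ, XH = (XX A H : ℝ) := ⟨_, rfl⟩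
    have hXH0 : 0 < XH := by
      rw [hXH]
      exact_mod_cast XX_pos hA H
    obtain ⟨v, hv⟩ : ∃ v : (Fin H → ℕ) → ℤ, v = vd b K H n₀ := ⟨_, rfl⟩
    obtain ⟨𝒮, h𝒮⟩ : ∃ 𝒮 : Finset (Fin H → ℕ), 𝒮 = fam A H := ⟨_, rfl⟩
    rw [← hXH, ← hv, ← h𝒮]
    have h3 : ∀ p ∈ Ps, ∀ r : ℤ, cnt 𝒮 v (p ^ m₀ p) r ≤ δ * XH := by
      intro p hp r
      rw [h𝒮, hv, hXH]
      exact h3 p hp A hA n₀ r
    have hcard : (𝒮.card : ℝ) = XH := by
      rw [h𝒮, hXH, fam_card]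
    set bad : ℕ → Finset (Fin H → ℕ) := fun p => 𝒮.filter (fun S => ∃ r ∈ R p, ((p ^ V : ℕ) : ℤ) ∣ v S - r) with hbad
    have hbadc : ∀ p ∈ Ps, ((bad p).card : ℝ) ≤ d * (δ * XH) := by
      intro p hp
      have g1 : bad p ⊆ (R p).biUnion (fun r => 𝒮.filter (fun S => ((p ^ m₀ p : ℕ) : ℤ) ∣ v S - r)) := by
        intro S hS
        rw [hbad, mem_filter] at hS
        obtain ⟨hS1, r, hr, hS2⟩ := hS
        rw [mem_biUnion]
        refine ⟨r, hr, mem_filter.2 ⟨hS1, dvd_trans ?_ hS2⟩⟩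
        exact_mod_cast pow_dvd_pow p (hVle p hp)
      have g2 : ((bad p).card : ℝ) ≤ ∑ r ∈ R p, ((𝒮.filter (fun S => ((p ^ m₀ p : ℕ) : ℤ) ∣ v S - r)).card : ℝ) := by
        exact_mod_cast (card_le_card g1).trans card_biUnion_le
      refine g2.trans ?_
      calc ∑ r ∈ R p, ((𝒮.filter (fun S => ((p ^ m₀ p : ℕ) : ℤ) ∣ v S - r)).card : ℝ)
          ≤ ∑ _r ∈ R p, (δ * XH) := by
            refine sum_le_sum fun r _ => ?_
            have := h3 p hp r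
            unfold cnt at this
            exact this
        _ = (R p).card * (δ * XH) := by rw [sum_const, nsmul_eq_mul]
        _ ≤ d * (δ * XH) := by
            have : ((R p).card : ℝ) ≤ d := by exact_mod_cast hR p
            gcongr
    set Gd : Finset (Fin H → ℕ) := 𝒮 \ Ps.biUnion bad with hGd
    have h4 : (𝒮.card : ℝ) ≤ Gd.card + (Ps.biUnion bad).card := by
      have : 𝒮.card ≤ Gd.card + (Ps.biUnion bad).card := card_le_card_sdiff_add_card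
      exact_mod_cast this
    have h5 : (((Ps.biUnion bad).card : ℕ) : ℝ) ≤ XH / 2 := by
      calc (((Ps.biUnion bad).card : ℕ) : ℝ) ≤ ∑ p ∈ Ps, ((bad p).card : ℝ) := by exact_mod_cast card_biUnion_le
        _ ≤ ∑ _p ∈ Ps, (d * (δ * XH) : ℝ) := sum_le_sum hbadc
        _ = Ps.card * (d * (δ * XH)) := by rw [sum_const, nsmul_eq_mul]
        _ ≤ N * (d * (δ * XH)) := by
            have : Ps.card ≤ N := by
              calc Ps.card ≤ (Icc 1 N).card := card_filter_le _ _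
                _ = N := by rw [Nat.card_Icc]; omega
            have : (Ps.card : ℝ) ≤ N := by exact_mod_cast this
            gcongr
        _ = (N * d / ((N + 1) * (d + 1))) * (XH / 2) := by
            rw [hδ]
            field_simp
        _ ≤ 1 * (XH / 2) := by
            apply mul_le_mul_of_nonneg_right _ (by positivity)
            rw [div_le_one (by positivity)]
            have hN0 : (0 : ℝ) ≤ N := Nat.cast_nonneg _
            have hd0 : (0 : ℝ) ≤ d := Nat.cast_nonneg _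
            nlinarith
        _ = XH / 2 := one_mul _
    have h6 : XH / 2 ≤ Gd.card := by
      rw [hcard] at h4
      linarith
    obtain ⟨r, hr⟩ := exists_class Gd v M hM0
    have h7 : XH / (2 * M) ≤ cnt Gd v M r := by
      refine le_trans ?_ hr
      rw [← div_div]
      gcongr
    have h8 : cnt Gd v M r ≤ cnt 𝒮 v M r := by
      unfold cnt
      have : (Gd.filter (fun i => (M : ℤ) ∣ v i - r)) ⊆ (𝒮.filter (fun i => (M : ℤ) ∣ v i - r)) :=
        filter_subset_filter _ sdiff_subset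
      exact_mod_cast card_le_card this
    refine ⟨r, h7.trans h8, ?_⟩
    intro p hp hpN x hx hcon
    have h9 : 0 < cnt Gd v M r := lt_of_lt_of_le (by positivity) h7
    unfold cnt at h9
    have h10 : 0 < (Gd.filter (fun i => (M : ℤ) ∣ v i - r)).card := by exact_mod_cast h9
    obtain ⟨S, hS⟩ := card_pos.1 h10
    rw [mem_filter, hGd, Finset.mem_sdiff, mem_biUnion] at hS
    apply hS.1.2
    refine ⟨p, hmem p hp hpN, mem_filter.2 ⟨hS.1.1, x, hx, ?_⟩⟩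
    have h11 : ((p ^ V : ℕ) : ℤ) ∣ v S - r := by
      refine dvd_trans ?_ hS.2
      have : p ^ V ∣ M := Finset.dvd_prod_of_mem (fun p => p ^ V) (hmem p hp hpN)
      exact_mod_cast this
    have h13 := dvd_add h11 hcon
    rwa [sub_add_sub_cancel] at h13

end Pool.Agent.Run7.h620.PX
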