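import Pool.Agent.Run7.h620.PX.Dx
import Pool.Agent.Run7.h620.PX.Gx
import Pool.Agent.Run7.h620.PX.Cg
import Pool.Agent.Run7.h620.PD.Zq

set_option autoImplicit false

/-! Primes among the palindromes with digits in given sets, from above. -/

namespace Pool.Agent.Run7.h620.PX

open Finset Polynomial Filter Pool.Agent.Run7.h620.PD

/-- the outer and the middle digit -/
def aa (x : ℕ × ℕ) (j : ℕ) : ℕ := if j = 0 then x.1 else x.2

lemma exists_d (b K H n : ℕ) (A : ℕ → Finset ℕ) (hb : 2 ≤ b) (hH : H = (K - 2) / 2) (hK : 12 ≤ K)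
    (h1 : (Nat.digits b n).length = K) (h2 : (Nat.digits b n).reverse = Nat.digits b n)
    (h3 : ∀ j < K, (Nat.digits b n).getD j 0 ∈ A (min j (K - 1 - j))) :
    ∃ x ∈ range b ×ˢ range b, ∃ d ∈ fam A H, n = nX b K H (aa x) d := by
  obtain ⟨g, hg⟩ : ∃ g : ℕ → ℕ, g = fun j => (Nat.digits b n).getD j 0 := ⟨_, rfl⟩
  have hgb : ∀ j < K, g j < b := by
    intro j hj
    rw [hg]
    dsimp only
    rw [List.getD_eq_getElem _ _ (by omega)]
    exact Nat.digits_lt_base (by omega) (List.getElem_mem _)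
  have hsym : ∀ j < K, g (K - 1 - j) = g j := by
    intro j hj
    rw [hg]
    dsimp only
    rw [List.getD_eq_getElem _ _ (by omega), List.getD_eq_getElem _ _ (by omega)]
    have h4 : (Nat.digits b n)[j]'(by omega) = ((Nat.digits b n).reverse)[j]'(by rw [List.length_reverse]; omega) := by
      simp only [h2]
    rw [h4, List.getElem_reverse]
    congr 1
    omega
  refine ⟨(g 0, g (H + 1)), mem_product.2 ⟨mem_range.2 (hgb 0 (by omega)), mem_range.2 (hgb (H + 1) (by omega))⟩,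
    fun i => g (i.val + 1), ?_, ?_⟩
  · unfold fam
    rw [Fintype.mem_piFinset]
    intro i
    have hi := i.isLt
    have h4 := h3 (i.val + 1) (by omega)
    have h5 : min (i.val + 1) (K - 1 - (i.val + 1)) = i.val + 1 := by omega
    rw [h5] at h4
    rw [hg]
    exact h4
  · unfold nX
    have h4 : Nat.digits b n = lX K H (aa (g 0, g (H + 1))) (fun i : Fin H => g (i.val + 1)) := by
      apply List.ext_getElem
      · rw [lX_length, h1]
      · intro j hj hj'
        rw [lX_get]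
        have hjK : j < K := by omega
        have h5 : (Nat.digits b n)[j] = g j := by
          rw [hg]
          dsimp only
          rw [List.getD_eq_getElem _ _ hj]
        rw [h5]
        have hex : ∀ t < H, ex (fun i : Fin H => g (i.val + 1)) t = g (t + 1) := by
          intro t ht
          unfold ex
          rw [dif_pos ht]
        unfold dgX
        by_cases h6 : 1 ≤ j ∧ j ≤ H
        · rw [if_pos h6, hex (j - 1) (by omega)]
          congr 1
          omega
        · rw [if_neg h6]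
          by_cases h7 : 1 ≤ K - 1 - j ∧ K - 1 - j ≤ H
          · rw [if_pos h7, hex (K - 1 - j - 1) (by omega)]
            have h8 : K - 1 - j - 1 + 1 = K - 1 - j := by omega
            rw [h8, hsym j hjK]
          · rw [if_neg h7]
            unfold aa
            by_cases h8 : min j (K - 1 - j) = 0
            · rw [if_pos h8]
              rcases Nat.eq_zero_or_pos j with h9 | h9
              · rw [h9]
              · have h10 : j = K - 1 - 0 := by omega
                have := hsym 0 (by omega)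
                rw [← h10] at this
                exact this
            · rw [if_neg h8]
              have h9 : j = H + 1 := by omega
              rw [h9]
    rw [← h4, Nat.ofDigits_digits]

open Classical in
theorem upX (b : ℕ) (hb : 2 ≤ b) :
    ∃ C : ℝ, 0 < C ∧ ∀ᶠ K : ℕ in atTop, ∀ A : ℕ → Finset ℕ, Ok b A →
      ∀ P : Finset ℕ, (∀ n ∈ P, n.Prime ∧ (Nat.digits b n).length = K ∧ (Nat.digits b n).reverse = Nat.digits b n ∧
          ∀ j < K, (Nat.digits b n).getD j 0 ∈ A (min j (K - 1 - j))) →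
        (P.card : ℝ) ≤ C * (XX A ((K - 2) / 2) : ℝ) / K := by
  obtain ⟨N, hN3, hN2, hcore⟩ := core5 b hb (UX b) (UX_ne b hb) 1 le_rfl
  obtain ⟨c₂, hc₂, hWup⟩ := Wq_up N hN3
  obtain ⟨T, hT, η, hη, M₁, hM₁, hev⟩ := hcore N le_rfl 1 one_pos (by
    intro p hp hp1
    have := Nat.le_of_dvd one_pos hp1
    have := hp.two_le
    omega) (yX b 1) (yX_pos b 1 (by omega) le_rfl) (yX_lt b 1 (by omega) le_rfl)
  have hs1 : 1 ≤ sing 1 := one_le_sing 1
  obtain ⟨s, hs⟩ : ∃ s : ℝ, s = sing 1 := ⟨_, rfl⟩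
  rw [← hs] at hs1
  have hb0 : (0 : ℝ) < b := by
    have : 0 < b := by omega
    exact_mod_cast this
  refine ⟨b ^ 2 * (6 * c₂ * s * M₁ + T), by positivity, ?_⟩
  filter_upwards [hev, eventually_ge_atTop 12] with K hK hK12 A hA P hP
  obtain ⟨J, hNJ, hKJ, hJK, hKJ2, hmain⟩ := hK
  have hK0 : (0 : ℝ) < K := by
    have : 0 < K := by omega
    exact_mod_cast this
  obtain ⟨H, hH⟩ : ∃ H : ℕ, H = (K - 2) / 2 := ⟨_, rfl⟩
  rw [← hH] at hmain ⊢
  have hHK : 2 * H + 2 ≤ K := by omega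
  obtain ⟨X, hX⟩ : ∃ X : ℝ, X = (XX A H : ℝ) := ⟨_, rfl⟩
  have hX0 : 0 < X := by
    rw [hX]
    exact_mod_cast XX_pos hA H
  rw [← hX]
  obtain ⟨W, hW⟩ : ∃ W : ℝ, W = ∏ p ∈ PP N J, (1 - ((Zq 1 p).card : ℝ) / (p : ℝ)) := ⟨_, rfl⟩
  have hW0 : 0 ≤ W := by
    rw [hW]
    apply Finset.prod_nonneg
    intro p hp
    obtain ⟨hp1, hp2, hp3⟩ := (mem_PP N J p).1 hp
    have hp0 : (0 : ℝ) < p := by exact_mod_cast hp1.pos
    have h3 : (Zq 1 p).card ≤ p := (Zq_le 1 p).trans hp1.pos
    have h4 : ((Zq 1 p).card : ℝ) / p ≤ 1 := by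
      rw [div_le_one hp0]
      exact_mod_cast h3
    linarith
  have hWle : W ≤ c₂ * s * (2 * M₁) / K := by
    have h0 := hWup J 1 hNJ one_pos
    rw [← hW, Nat.cast_one, ← hs] at h0
    refine h0.trans ?_
    rw [div_le_div_iff₀ (by positivity) hK0]
    have h4 : (K : ℝ) ≤ 2 * M₁ * 2 ^ J := by
      have h5 : (K : ℝ) ≤ M₁ * (2 ^ J * 2) := by
        rw [← pow_succ]
        exact_mod_cast hKJ2.le
      linarith
    calc c₂ * s * K ≤ c₂ * s * (2 * M₁ * 2 ^ J) := by gcongr
      _ = _ := by ring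
  obtain ⟨GT, hGT⟩ : ∃ GT : ℕ × ℕ → Finset (Fin H → ℕ), GT = fun x => (((fam A H).filter (fun d =>
    ((1 * 1 : ℕ) : ℤ) ∣ vd b K H (cc b K H (aa x)) d - 0)).filter
    (fun d => ∀ p ∈ PP N J, ¬ ∃ z ∈ Zq 1 p, (p : ℤ) ∣ vd b K H (cc b K H (aa x)) d - z)) := ⟨_, rfl⟩
  have h1 : ∀ x ∈ range b ×ˢ range b, ((GT x).card : ℝ) ≤ X * (6 * c₂ * s * M₁ + T) / K := by
    intro x _
    have hFB := fourX A b K H 1 (by omega) le_rfl (by omega) (by omega) hA (cc b K H (aa x))
    rw [← hX] at hFB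
    obtain ⟨g1, g2⟩ := hmain 1 (Fin H → ℕ) (fam A H) (vd b K H (cc b K H (aa x))) X (Zq 1) hX0.le hFB one_pos (by
      rw [Nat.cast_one]
      apply Real.one_le_exp
      apply div_nonneg (by positivity)
      exact Real.log_natCast_nonneg _) (Nat.coprime_one_right 1) (by
        rw [Nat.cast_one]
        exact isCoprime_one_left)
      (fun p hp _ => ⟨Zq_sub 1 p hp, Zq_le 1 p⟩) (by
        intro p hp _ hpq
        have := Nat.le_of_dvd one_pos hpq
        have := hp.two_le
        omega) (by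
        intro d _
        rw [← nX_eq b K H (aa x) d hHK]
        exact Int.natCast_nonneg _) 0
    obtain ⟨A', hA'⟩ : ∃ A' : ℝ, A' = cnt (fam A H) (vd b K H (cc b K H (aa x))) (1 * 1) 0 := ⟨_, rfl⟩
    rw [← hA', ← hW] at g2
    have hA1 : A' = X := by
      rw [hA', hX, ← fam_card]
      unfold cnt
      rw [filter_true_of_mem (fun S _ => by simp)]
    have h2 := (abs_le.1 g2).2
    have h3 : A' * W ≤ 2 * X * (c₂ * s * (2 * M₁) / K) := by
      have h33 : A' ≤ 2 * X := by
        rw [hA1]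
        linarith
      exact mul_le_mul h33 hWle hW0 (by positivity)
    have h4 : X / (1 : ℕ) * (T / (K : ℝ) ^ (1 + 1)) ≤ X * T / K := by
      have hK1 : (1 : ℝ) ≤ K := by
        have : 1 ≤ K := by omega
        exact_mod_cast this
      have hKK : (K : ℝ) ^ 1 ≤ (K : ℝ) ^ (1 + 1) := pow_le_pow_right₀ hK1 (by norm_num)
      calc X / (1 : ℕ) * (T / (K : ℝ) ^ (1 + 1)) ≤ X / (1 : ℕ) * (T / (K : ℝ) ^ 1) := by
            apply mul_le_mul_of_nonneg_left _ (by positivity)
            exact div_le_div_of_nonneg_left hT (by positivity) hKK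
        _ = X * T / K := by rw [pow_one, Nat.cast_one, div_one]; ring
    have h5 : ((GT x).card : ℝ) - A' * W ≤ 1 / 2 * (A' * W) + X / (1 : ℕ) * (T / (K : ℝ) ^ (1 + 1)) := by
      refine le_trans (le_of_eq ?_) h2
      rw [hGT]
    have h6 : X * (6 * c₂ * s * M₁ + T) / K =
        3 / 2 * (2 * X * (c₂ * s * (2 * M₁) / K)) + X * T / K := by ring
    rw [h6]
    linarith
  have h2 : P ⊆ (range b ×ˢ range b).biUnion (fun x => (GT x).image (fun d => nX b K H (aa x) d)) := by
    intro n hn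
    obtain ⟨g5, g1, g2, g3⟩ := hP n hn
    obtain ⟨x, hx, d, hd, hnd⟩ := exists_d b K H n A hb hH hK12 g1 g2 g3
    rw [mem_biUnion]
    refine ⟨x, hx, ?_⟩
    rw [mem_image]
    refine ⟨d, ?_, hnd.symm⟩
    rw [hGT]
    dsimp only
    rw [mem_filter, mem_filter]
    rw [← nX_eq b K H (aa x) d hHK, ← hnd]
    refine ⟨⟨hd, by simp⟩, ?_⟩
    rintro p hp ⟨z, hz, hpz⟩
    obtain ⟨hp1, hp2, hp3⟩ := (mem_PP N J p).1 hp
    have hz0 : z = 0 := by
      unfold Zq at hz
      split_ifs at hz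
      · simp at hz
      · exact mem_singleton.1 hz
    rw [hz0, Nat.cast_zero, sub_zero] at hpz
    have h5 : p = n := (Nat.prime_dvd_prime_iff_eq hp1 g5).1 (by exact_mod_cast hpz)
    have h7 : b ^ (K - 1) ≤ n := by
      have := Nat.base_pow_length_digits_le b n (by omega) g5.ne_zero
      rw [g1] at this
      have h4 : b ^ K = b * b ^ (K - 1) := by rw [← pow_succ']; congr 1; omega
      rw [h4] at this
      exact Nat.le_of_mul_le_mul_left this (by omega)
    have h8 : 2 ^ ((K - 1) * 3) ≤ 2 ^ K := by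
      calc 2 ^ ((K - 1) * 3) = (2 ^ (K - 1)) ^ 3 := by rw [pow_mul]
        _ ≤ (b ^ (K - 1)) ^ 3 := Nat.pow_le_pow_left (Nat.pow_le_pow_left hb _) _
        _ ≤ p ^ 3 := by rw [h5]; exact Nat.pow_le_pow_left h7 _
        _ ≤ (2 ^ 2 ^ J) ^ 3 := Nat.pow_le_pow_left hp3 _
        _ ≤ (2 ^ 2 ^ J) ^ M₁ := Nat.pow_le_pow_right (Nat.pow_pos (by norm_num)) hM₁
        _ = 2 ^ (M₁ * 2 ^ J) := by rw [← pow_mul, mul_comm]
        _ ≤ 2 ^ K := Nat.pow_le_pow_right (by norm_num) hJK
    have h9 := (Nat.pow_le_pow_iff_right (by norm_num : 1 < 2)).1 h8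
    omega
  have h3 : (P.card : ℝ) ≤ ∑ x ∈ range b ×ˢ range b, ((GT x).card : ℝ) := by
    have h4 : P.card ≤ ∑ x ∈ range b ×ˢ range b, (GT x).card := by
      refine (card_le_card h2).trans (card_biUnion_le.trans ?_)
      exact sum_le_sum fun x _ => card_image_le
    exact_mod_cast h4
  calc (P.card : ℝ) ≤ ∑ x ∈ range b ×ˢ range b, ((GT x).card : ℝ) := h3
    _ ≤ ∑ _x ∈ range b ×ˢ range b, (X * (6 * c₂ * s * M₁ + T) / K) := sum_le_sum h1
    _ = ((b : ℝ) * b) * (X * (6 * c₂ * s * M₁ + T) / K) := by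
        rw [sum_const, card_product, card_range, nsmul_eq_mul]
        push_cast
        ring
    _ = _ := by ring

end Pool.Agent.Run7.h620.PX
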