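import Pool.Agent.Run7.h620.PX.Fo
import Pool.Agent.Run7.h620.PD.Ac

set_option autoImplicit false

/-! No residue class modulo a high prime power contains many of the numbers, digits in given sets. -/

namespace Pool.Agent.Run7.h620.PX

open Finset Polynomial Filter Pool.Agent.Run7.h620.PD
open Pool.Agent.H469R2.NK (e)

lemma acX_cop {ι : Type} (s : Finset ι) (v : ι → ℤ) (b : ℕ) (X y : ℝ) (U : ℤ) (j V : ℕ) (q W C : ℕ)
    (hFB : FB s v b X y 1 U j V) (hX : 0 ≤ X) (hy0 : 0 < y) (hy1 : y < 1) (hU0 : U ≠ 0) (hq : 0 < q)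
    (hcop : Nat.Coprime q b) (hW : q ≤ b ^ W) (hV : W * C ≤ V) (r : ℤ) :
    cnt s v q r ≤ X * ((U.natAbs : ℝ) / q + y ^ C) := by
  have hU1 : 0 < U.natAbs := Int.natAbs_pos.2 hU0
  have hqr : (0 : ℝ) < q := by exact_mod_cast hq
  have h1 := cnt_exp s v q hq r
  have h2 : (q : ℝ) * cnt s v q r ≤
      ∑ h ∈ range q, ‖∑ S ∈ s, e ((h : ℝ) / q * (v S : ℝ))‖ := by
    have h3 : ‖(((q : ℝ) * cnt s v q r : ℝ) : ℂ)‖ =
        (q : ℝ) * cnt s v q r := by
      rw [Complex.norm_real, Real.norm_eq_abs, abs_of_nonneg]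
      exact mul_nonneg hqr.le (cnt_nonneg _ _ _ _)
    rw [← h3, h1]
    refine (norm_sum_le _ _).trans (le_of_eq ?_)
    refine sum_congr rfl fun h _ => ?_
    rw [norm_term]
  have h3 : ∀ h ∈ range q, ‖∑ S ∈ s, e ((h : ℝ) / q * (v S : ℝ))‖ ≤
      X * ((if (q : ℤ) ∣ U * h then 1 else 0) + y ^ C) := by
    intro h _
    have h4 := hFB ((h : ℝ) / q)
    refine h4.trans ?_
    apply mul_le_mul_of_nonneg_left _ hX
    have hyC : 0 ≤ y ^ C := by positivity
    by_cases h5 : (q : ℤ) ∣ U * h
    · rw [if_pos h5]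
      have : y ^ (bet b (((1 : ℕ) : ℝ) * U * ((h : ℝ) / q)) j V) ≤ 1 :=
        pow_le_one₀ hy0.le hy1.le
      linarith
    · rw [if_neg h5, zero_add]
      have h6 : ((1 : ℕ) : ℝ) * U * ((h : ℝ) / q) = ((U * h : ℤ) : ℝ) / q := by
        push_cast
        ring
      rw [h6]
      exact pow_le_pow_of_le_one hy0.le hy1.le (bet_low b q (U * h) hq hcop h5 W hW j V C hV)
  have h4 := h2.trans (sum_le_sum h3)
  rw [← mul_sum, sum_add_distrib, sum_const, card_range, nsmul_eq_mul] at h4
  have h5 : ∑ h ∈ range q, (if (q : ℤ) ∣ U * h then (1 : ℝ) else 0) ≤ U.natAbs := by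
    rw [← sum_filter, sum_const, nsmul_eq_mul, mul_one]
    have h6 : ((range q).filter (fun h : ℕ => (q : ℤ) ∣ U * h)).card ≤ (range U.natAbs).card := by
      apply card_le_card_of_injOn (fun h => U.natAbs * h / q)
      · intro h hh
        rw [mem_coe, mem_filter, mem_range] at hh
        rw [mem_coe, mem_range]
        rw [Nat.div_lt_iff_lt_mul hq]
        exact Nat.mul_lt_mul_of_pos_left hh.1 hU1
      · intro h hh h' hh' heq
        rw [mem_coe, mem_filter, mem_range] at hh hh'
        have g1 : q ∣ U.natAbs * h := by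
          have := Int.natCast_dvd.1 hh.2
          rwa [Int.natAbs_mul, Int.natAbs_natCast] at this
        have g2 : q ∣ U.natAbs * h' := by
          have := Int.natCast_dvd.1 hh'.2
          rwa [Int.natAbs_mul, Int.natAbs_natCast] at this
        simp only at heq
        have g3 : U.natAbs * h = U.natAbs * h' := by
          rw [← Nat.div_mul_cancel g1, ← Nat.div_mul_cancel g2, heq]
        exact Nat.eq_of_mul_eq_mul_left hU1 g3
    rw [card_range] at h6
    exact_mod_cast h6
  have h6 : (q : ℝ) * cnt s v q r ≤ q * (X * ((U.natAbs : ℝ) / q + y ^ C)) := by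
    calc _ ≤ _ := h4
      _ ≤ X * ((U.natAbs : ℝ) + q * y ^ C) := by gcongr
      _ = _ := by field_simp
  exact le_of_mul_le_mul_left h6 hqr

lemma prod_erase (b H t : ℕ) (A A' : ℕ → Finset ℕ) (I : Finset ℕ) (hA : Ok b A) (hb : 2 ≤ b)
    (hA' : ∀ i, (A' i).card ≤ if i ∈ I then (A i).card - 1 else (A i).card) (ht : t ≤ I.card)
    (hI : ∀ i ∈ I, 1 ≤ i ∧ i ≤ H) : ((XX A' H : ℕ) : ℝ) ≤ (1 - 1 / (b : ℝ)) ^ t * XX A H := by
  have hb1 : (1 : ℝ) ≤ b := by
    have : 1 ≤ b := by omega
    exact_mod_cast this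
  have hq0 : 0 ≤ 1 - 1 / (b : ℝ) := by
    have : 1 / (b : ℝ) ≤ 1 := by rw [div_le_one (by linarith)]; exact hb1
    linarith
  have hq1 : 1 - 1 / (b : ℝ) ≤ 1 := by
    have : 0 ≤ 1 / (b : ℝ) := by positivity
    linarith
  obtain ⟨q, hq⟩ : ∃ q : ℝ, q = 1 - 1 / (b : ℝ) := ⟨_, rfl⟩
  rw [← hq] at hq0 hq1 ⊢
  have h1 : ((XX A' H : ℕ) : ℝ) ≤ ∏ s ∈ range H, ((if s + 1 ∈ I then q else 1) * ((A (s + 1)).card : ℝ)) := by
    unfold XX
    rw [Nat.cast_prod]
    apply Finset.prod_le_prod
    · intro s _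
      exact Nat.cast_nonneg _
    · intro s _
      have h0 := hA' (s + 1)
      have h2 := (hA (s + 1)).2
      have h3 : ((A (s + 1)).card : ℝ) ≤ b := by
        have := card_le_card (hA (s + 1)).1
        rw [card_range] at this
        exact_mod_cast this
      by_cases h5 : s + 1 ∈ I
      · rw [if_pos h5] at h0 ⊢
        have h4 : 1 / (b : ℝ) * ((A (s + 1)).card : ℝ) ≤ 1 := by
          rw [one_div, inv_mul_le_iff₀ (by linarith), mul_one]
          exact h3
        have h6 : ((A' (s + 1)).card : ℝ) ≤ ((A (s + 1)).card : ℝ) - 1 := by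
          have h7 : (A' (s + 1)).card + 1 ≤ (A (s + 1)).card := by omega
          have h8 : ((A' (s + 1)).card : ℝ) + 1 ≤ ((A (s + 1)).card : ℝ) := by exact_mod_cast h7
          linarith
        rw [hq, sub_mul, one_mul]
        linarith
      · rw [if_neg h5] at h0 ⊢
        rw [one_mul]
        exact_mod_cast h0
  refine h1.trans ?_
  rw [prod_mul_distrib]
  unfold XX
  rw [Nat.cast_prod]
  apply mul_le_mul_of_nonneg_right _ (Finset.prod_nonneg fun s _ => Nat.cast_nonneg _)
  rw [← prod_filter, prod_const]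
  apply pow_le_pow_of_le_one hq0 hq1
  refine ht.trans ?_
  apply card_le_card_of_injOn (fun i => i - 1)
  · intro i hi
    rw [mem_coe] at hi
    have h2 := hI i hi
    have h3 : i - 1 + 1 = i := by omega
    show i - 1 ∈ (((range H).filter (fun s => s + 1 ∈ I) : Finset ℕ) : Set ℕ)
    rw [mem_coe, mem_filter, mem_range, h3]
    exact ⟨by omega, hi⟩
  · intro i hi i' hi' h
    rw [mem_coe] at hi hi'
    have h2 := hI i hi
    have h3 := hI i' hi'
    simp only at h
    omega

/-- primes dividing the base -/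
lemma acX_dvd (b K H : ℕ) (n₀ : ℤ) (p m t : ℕ) (A : ℕ → Finset ℕ) (hA : Ok b A) (hb : 2 ≤ b) (hp : p.Prime)
    (hpb : p ∣ b) (hm : b * b ^ (2 * b * t) < p ^ m) (hH : 2 * b * t ≤ H) (hK : 2 * H + 2 ≤ K) (r : ℤ) :
    cnt (fam A H) (vd b K H n₀) (p ^ m) r ≤ (1 - 1 / (b : ℝ)) ^ t * XX A H := by
  classical
  choose x hx y hy hxy using hA.pair
  have hxb : ∀ i, x i < b := fun i => mem_range.1 ((hA i).1 (hx i))
  have hyb : ∀ i, y i < b := fun i => mem_range.1 ((hA i).1 (hy i))
  have hmaps : ∀ i ∈ Icc 1 (2 * b * t), ((y i : ℤ) - x i) ∈ Icc (-(b : ℤ)) ((b : ℤ) - 1) := by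
    intro i _
    have := hxb i
    have := hyb i
    rw [mem_Icc]
    omega
  have hcard : (Icc (-(b : ℤ)) ((b : ℤ) - 1)).card * t ≤ (Icc 1 (2 * b * t)).card := by
    rw [Int.card_Icc, Nat.card_Icc]
    have : ((b : ℤ) - 1 + 1 - -(b : ℤ)).toNat = 2 * b := by omega
    rw [this]
    omega
  obtain ⟨D, _, hDt⟩ := Finset.exists_le_card_fiber_of_mul_le_card_of_maps_to hmaps
    ⟨0, by rw [mem_Icc]; omega⟩ hcard
  set I : Finset ℕ := (Icc 1 (2 * b * t)).filter (fun i => (y i : ℤ) - x i = D) with hI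
  rcases Nat.eq_zero_or_pos t with ht | ht
  · subst ht
    rw [pow_zero, one_mul, ← fam_card]
    unfold cnt
    exact_mod_cast card_filter_le _ _
  have hInz : I.Nonempty := by
    rw [← card_pos]
    omega
  have hIm : ∀ i ∈ I, 1 ≤ i ∧ i ≤ 2 * b * t ∧ (y i : ℤ) - x i = D := by
    intro i hi
    rw [hI, mem_filter, mem_Icc] at hi
    exact ⟨hi.1.1, hi.1.2, hi.2⟩
  have hD0 : D ≠ 0 := by
    obtain ⟨i, hi⟩ := hInz
    have h1 := (hIm i hi).2.2
    have h2 := hxy i
    omega
  have hDb : D.natAbs < b := by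
    obtain ⟨i, hi⟩ := hInz
    have h1 := (hIm i hi).2.2
    have := hxb i
    have := hyb i
    omega
  set A' : ℕ → Finset ℕ := fun i => if i ∈ I then (A i).erase (y i) else A i with hA'
  set φ : (Fin H → ℕ) → (Fin H → ℕ) := fun d i => if i.val + 1 ∈ I ∧ d i = y (i.val + 1) then x (i.val + 1) else d i
    with hφ
  set 𝒞 := (fam A H).filter (fun d => ((p ^ m : ℕ) : ℤ) ∣ vd b K H n₀ d - r) with h𝒞
  have hcardle : 𝒞.card ≤ (fam A' H).card := by
    apply card_le_card_of_injOn φ
    · intro d hd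
      rw [mem_coe, h𝒞, mem_filter] at hd
      have hd1 := hd.1
      unfold fam at hd1
      rw [Fintype.mem_piFinset] at hd1
      rw [mem_coe]
      unfold fam
      rw [Fintype.mem_piFinset]
      intro i
      simp only [hφ, hA']
      by_cases h1 : i.val + 1 ∈ I
      · rw [if_pos h1]
        by_cases h2 : d i = y (i.val + 1)
        · rw [if_pos ⟨h1, h2⟩, mem_erase]
          exact ⟨Ne.symm (hxy _), hx _⟩
        · rw [if_neg (fun h => h2 h.2), mem_erase]
          exact ⟨h2, hd1 i⟩
      · rw [if_neg h1, if_neg (fun h => h1 h.1)]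
        exact hd1 i
    · intro d hd d' hd' hdd
      rw [mem_coe, h𝒞, mem_filter] at hd hd'
      have hdd' : ∀ i : Fin H, (if i.val + 1 ∈ I ∧ d i = y (i.val + 1) then x (i.val + 1) else d i) =
          (if i.val + 1 ∈ I ∧ d' i = y (i.val + 1) then x (i.val + 1) else d' i) := fun i => congrFun hdd i
      set S : Finset ℕ := ((univ : Finset (Fin H)).filter (fun i => i.val + 1 ∈ I ∧ d i = y (i.val + 1))).image
        (fun i => i.val + 1) with hS
      set S' : Finset ℕ := ((univ : Finset (Fin H)).filter (fun i => i.val + 1 ∈ I ∧ d' i = y (i.val + 1))).image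
        (fun i => i.val + 1) with hS'
      have hSmem : ∀ i : Fin H, i.val + 1 ∈ S ↔ (i.val + 1 ∈ I ∧ d i = y (i.val + 1)) := by
        intro i
        rw [hS, mem_image]
        constructor
        · rintro ⟨i', hi', h⟩
          have : i' = i := Fin.ext (by omega)
          rw [this, mem_filter] at hi'
          exact hi'.2
        · intro h
          exact ⟨i, mem_filter.2 ⟨mem_univ _, h⟩, rfl⟩
      have hSmem' : ∀ i : Fin H, i.val + 1 ∈ S' ↔ (i.val + 1 ∈ I ∧ d' i = y (i.val + 1)) := by
        intro i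
        rw [hS', mem_image]
        constructor
        · rintro ⟨i', hi', h⟩
          have : i' = i := Fin.ext (by omega)
          rw [this, mem_filter] at hi'
          exact hi'.2
        · intro h
          exact ⟨i, mem_filter.2 ⟨mem_univ _, h⟩, rfl⟩
      have hSsub : S ⊆ Icc 1 H := by
        intro j hj
        rw [hS, mem_image] at hj
        obtain ⟨i, _, rfl⟩ := hj
        rw [mem_Icc]
        exact ⟨by omega, i.isLt⟩
      have hSsub' : S' ⊆ Icc 1 H := by
        intro j hj
        rw [hS', mem_image] at hj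
        obtain ⟨i, _, rfl⟩ := hj
        rw [mem_Icc]
        exact ⟨by omega, i.isLt⟩
      have hSI : ∀ j ∈ S, j ∈ I := by
        intro j hj
        rw [hS, mem_image] at hj
        obtain ⟨i, hi, rfl⟩ := hj
        exact (mem_filter.1 hi).2.1
      have hSI' : ∀ j ∈ S', j ∈ I := by
        intro j hj
        rw [hS', mem_image] at hj
        obtain ⟨i, hi, rfl⟩ := hj
        exact (mem_filter.1 hi).2.1
      have hinj : ∀ i i' : Fin H, i.val + 1 = i'.val + 1 → i = i' := fun i i' h => Fin.ext (by omega)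
      have hsumS : ∑ j ∈ S, (gg b K j : ℤ) = ∑ i : Fin H, if i.val + 1 ∈ S then (gg b K (i.val + 1) : ℤ) else 0 := by
        conv_lhs => rw [hS]
        rw [sum_image (fun i _ i' _ h => hinj i i' h), sum_filter]
        refine sum_congr rfl fun i _ => ?_
        simp only [hSmem i]
      have hsumS' : ∑ j ∈ S', (gg b K j : ℤ) = ∑ i : Fin H, if i.val + 1 ∈ S' then (gg b K (i.val + 1) : ℤ) else 0 := by
        conv_lhs => rw [hS']
        rw [sum_image (fun i _ i' _ h => hinj i i' h), sum_filter]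
        refine sum_congr rfl fun i _ => ?_
        simp only [hSmem' i]
      have hdiff : vd b K H n₀ d - vd b K H n₀ d' = vv b K n₀ D S - vv b K n₀ D S' := by
        unfold vd vv
        rw [hsumS, hsumS', add_sub_add_left_eq_sub, add_sub_add_left_eq_sub, ← mul_sub, ← sum_sub_distrib,
          ← sum_sub_distrib, mul_sum]
        refine sum_congr rfl fun i _ => ?_
        have h1 := hdd' i
        have h2 := hSmem i
        have h3 := hSmem' i
        by_cases hiI : i.val + 1 ∈ I
        · have h4 := (hIm _ hiI).2.2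
          by_cases h5 : d i = y (i.val + 1)
          · by_cases h6 : d' i = y (i.val + 1)
            · rw [if_pos (h2.2 ⟨hiI, h5⟩), if_pos (h3.2 ⟨hiI, h6⟩), h5, h6]
              ring
            · rw [if_pos ⟨hiI, h5⟩, if_neg (fun h => h6 h.2)] at h1
              rw [if_pos (h2.2 ⟨hiI, h5⟩), if_neg (fun h => h6 (h3.1 h).2), h5, ← h1, ← h4]
              ring
          · by_cases h6 : d' i = y (i.val + 1)
            · rw [if_neg (fun h => h5 h.2), if_pos ⟨hiI, h6⟩] at h1
              rw [if_neg (fun h => h5 (h2.1 h).2), if_pos (h3.2 ⟨hiI, h6⟩), h6, h1, ← h4]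
              ring
            · rw [if_neg (fun h => h5 h.2), if_neg (fun h => h6 h.2)] at h1
              rw [if_neg (fun h => h5 (h2.1 h).2), if_neg (fun h => h6 (h3.1 h).2), h1]
              ring
        · rw [if_neg (fun h => hiI h.1), if_neg (fun h => hiI h.1)] at h1
          rw [if_neg (fun h => hiI (h2.1 h).1), if_neg (fun h => hiI (h3.1 h).1), h1]
          ring
      have hSS : S = S' := by
        apply low_inj b K H n₀ D p m (2 * b * t) hb hp hpb hD0 _ hK S S' hSsub hSsub'
        · rw [← hdiff]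
          have := dvd_sub hd.2 hd'.2
          have h2 : vd b K H n₀ d - r - (vd b K H n₀ d' - r) = vd b K H n₀ d - vd b K H n₀ d' := by ring
          rwa [h2] at this
        · intro i hi
          constructor
          · intro h
            have := (hIm i (hSI i h)).2.1
            omega
          · intro h
            have := (hIm i (hSI' i h)).2.1
            omega
        · refine lt_of_le_of_lt ?_ hm
          exact Nat.mul_le_mul_right _ hDb.le
      funext i
      have h1 := hdd' i
      have h2 := hSmem i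
      have h3 := hSmem' i
      rw [← hSS] at h3
      by_cases h4 : i.val + 1 ∈ S
      · rw [(h2.1 h4).2, (h3.1 h4).2]
      · rw [if_neg (fun h => h4 (h2.2 h)), if_neg (fun h => h4 (h3.2 h))] at h1
        exact h1
  have hprod : ((fam A' H).card : ℝ) ≤ (1 - 1 / (b : ℝ)) ^ t * XX A H := by
    rw [fam_card]
    refine prod_erase b H t A A' I hA hb (fun i => ?_) hDt (fun i hi => ?_)
    · simp only [hA']
      split_ifs
      · rw [card_erase_of_mem (hy _)]
      · exact le_rfl
    · have h2 := hIm i hi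
      exact ⟨h2.1, h2.2.1.trans hH⟩
  unfold cnt
  refine le_trans ?_ hprod
  exact_mod_cast hcardle

end Pool.Agent.Run7.h620.PX
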