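import Pool.Agent.Run7.h620.PX.Fo
import Pool.Agent.Run7.h620.PD.Digits

set_option autoImplicit false

/-! Digits in given sets: the numbers. -/

namespace Pool.Agent.Run7.h620.PX

open Finset Pool.Agent.Run7.h620.PD

/-- extension by zero -/
def ex {H : ℕ} (d : Fin H → ℕ) (i : ℕ) : ℕ := if h : i < H then d ⟨i, h⟩ else 0

lemma ex_coe {H : ℕ} (d : Fin H → ℕ) (i : Fin H) : ex d i.val = d i := by
  unfold ex
  rw [dif_pos i.isLt]

/-- the digit at the place `j` -/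
def dgX (K H : ℕ) (a : ℕ → ℕ) (d : Fin H → ℕ) (j : ℕ) : ℕ :=
  if 1 ≤ j ∧ j ≤ H then ex d (j - 1) else
    if 1 ≤ K - 1 - j ∧ K - 1 - j ≤ H then ex d (K - 1 - j - 1) else a (min j (K - 1 - j))

/-- the digits -/
def lX (K H : ℕ) (a : ℕ → ℕ) (d : Fin H → ℕ) : List ℕ := (List.range K).map (dgX K H a d)

/-- the number -/
def nX (b K H : ℕ) (a : ℕ → ℕ) (d : Fin H → ℕ) : ℕ := Nat.ofDigits b (lX K H a d)

/-- the constant term -/
def cc (b K H : ℕ) (a : ℕ → ℕ) : ℤ := ∑ j ∈ range K, if (1 ≤ j ∧ j ≤ H) ∨ (1 ≤ K - 1 - j ∧ K - 1 - j ≤ H) then 0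
  else (a (min j (K - 1 - j)) : ℤ) * (b : ℤ) ^ j

lemma lX_length (K H : ℕ) (a : ℕ → ℕ) (d : Fin H → ℕ) : (lX K H a d).length = K := by
  simp [lX]

lemma lX_get (K H : ℕ) (a : ℕ → ℕ) (d : Fin H → ℕ) (j : ℕ) (hj : j < (lX K H a d).length) :
    (lX K H a d)[j] = dgX K H a d j := by
  simp [lX]

lemma dgX_sym (K H : ℕ) (a : ℕ → ℕ) (d : Fin H → ℕ) (hK : 2 * H + 2 ≤ K) (j : ℕ) (hj : j < K) :
    dgX K H a d (K - 1 - j) = dgX K H a d j := by
  unfold dgX
  have h1 : K - 1 - (K - 1 - j) = j := by omega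
  rw [h1, min_comm]
  by_cases h2 : 1 ≤ j ∧ j ≤ H
  · rw [if_neg (by omega), if_pos h2, if_pos h2]
  · by_cases h3 : 1 ≤ K - 1 - j ∧ K - 1 - j ≤ H
    · rw [if_pos h3, if_neg h2, if_pos h3]
    · rw [if_neg h3, if_neg h2, if_neg h2, if_neg h3]

lemma lX_reverse (K H : ℕ) (a : ℕ → ℕ) (d : Fin H → ℕ) (hK : 2 * H + 2 ≤ K) :
    (lX K H a d).reverse = lX K H a d := by
  apply List.ext_getElem
  · simp
  · intro j h1 h2
    rw [List.getElem_reverse, lX_get, lX_get]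
    rw [lX_length] at *
    exact dgX_sym K H a d hK j h2

lemma dgX_mem (K H : ℕ) (A : ℕ → Finset ℕ) (a : ℕ → ℕ) (ha : ∀ j, a j ∈ A j) (d : Fin H → ℕ) (hd : d ∈ fam A H)
    (hK : 2 * H + 2 ≤ K) (j : ℕ) (hj : j < K) : dgX K H a d j ∈ A (min j (K - 1 - j)) := by
  unfold fam at hd
  rw [Fintype.mem_piFinset] at hd
  unfold dgX
  by_cases h2 : 1 ≤ j ∧ j ≤ H
  · rw [if_pos h2]
    have h3 : min j (K - 1 - j) = j - 1 + 1 := by omega
    rw [h3]
    have h4 : j - 1 < H := by omega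
    have := hd ⟨j - 1, h4⟩
    rw [← ex_coe d ⟨j - 1, h4⟩] at this
    exact this
  · rw [if_neg h2]
    by_cases h3 : 1 ≤ K - 1 - j ∧ K - 1 - j ≤ H
    · rw [if_pos h3]
      have h5 : min j (K - 1 - j) = K - 1 - j - 1 + 1 := by omega
      rw [h5]
      have h4 : K - 1 - j - 1 < H := by omega
      have := hd ⟨K - 1 - j - 1, h4⟩
      rw [← ex_coe d ⟨K - 1 - j - 1, h4⟩] at this
      exact this
    · rw [if_neg h3]
      exact ha _

lemma digits_nX (b K H : ℕ) (A : ℕ → Finset ℕ) (hA : Ok b A) (hb : 2 ≤ b) (a : ℕ → ℕ) (ha : ∀ j, a j ∈ A j)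
    (ha0 : a 0 ≠ 0) (d : Fin H → ℕ) (hd : d ∈ fam A H) (hK : 2 * H + 2 ≤ K) :
    Nat.digits b (nX b K H a d) = lX K H a d := by
  unfold nX
  apply Nat.digits_ofDigits b (by omega)
  · intro l hl
    unfold lX at hl
    rw [List.mem_map] at hl
    obtain ⟨j, hj, rfl⟩ := hl
    exact mem_range.1 ((hA _).1 (dgX_mem K H A a ha d hd hK j (List.mem_range.1 hj)))
  · intro h
    rw [List.getLast_eq_getElem, lX_get, lX_length]
    unfold dgX
    rw [if_neg (by omega), if_neg (by omega)]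
    have : min (K - 1) (K - 1 - (K - 1)) = 0 := by omega
    rw [this]
    exact ha0

lemma nX_eq (b K H : ℕ) (a : ℕ → ℕ) (d : Fin H → ℕ) (hK : 2 * H + 2 ≤ K) :
    ((nX b K H a d : ℕ) : ℤ) = vd b K H (cc b K H a) d := by
  unfold nX lX vd
  rw [ofDigits_map]
  push_cast
  have h1 : ∀ j ∈ range K, ((dgX K H a d j : ℕ) : ℤ) * (b : ℤ) ^ j =
      (if (1 ≤ j ∧ j ≤ H) ∨ (1 ≤ K - 1 - j ∧ K - 1 - j ≤ H) then 0 else (a (min j (K - 1 - j)) : ℤ) * (b : ℤ) ^ j) +
      ((if 1 ≤ j ∧ j ≤ H then (ex d (j - 1) : ℤ) * (b : ℤ) ^ j else 0) +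
       (if 1 ≤ K - 1 - j ∧ K - 1 - j ≤ H then (ex d (K - 1 - j - 1) : ℤ) * (b : ℤ) ^ j else 0)) := by
    intro j hj
    rw [mem_range] at hj
    unfold dgX
    by_cases h2 : 1 ≤ j ∧ j ≤ H
    · have h3 : ¬ (1 ≤ K - 1 - j ∧ K - 1 - j ≤ H) := by omega
      rw [if_pos h2, if_pos (Or.inl h2), if_pos h2, if_neg h3]
      ring
    · by_cases h3 : 1 ≤ K - 1 - j ∧ K - 1 - j ≤ H
      · rw [if_neg h2, if_pos h3, if_pos (Or.inr h3), if_neg h2, if_pos h3]
        ring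
      · rw [if_neg h2, if_neg h3, if_neg (by tauto), if_neg h2, if_neg h3]
        ring
  rw [sum_congr rfl h1, sum_add_distrib, sum_add_distrib]
  unfold cc
  congr 1
  have h2 : ∑ j ∈ range K, (if 1 ≤ j ∧ j ≤ H then (ex d (j - 1) : ℤ) * (b : ℤ) ^ j else 0) =
      ∑ i ∈ range H, (ex d i : ℤ) * (b : ℤ) ^ (i + 1) := by
    rw [← sum_filter]
    refine sum_nbij' (fun j => j - 1) (fun i => i + 1) ?_ ?_ ?_ ?_ ?_
    · intro j hj
      have := (mem_filter.1 hj).2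
      rw [mem_range]
      omega
    · intro i hi
      rw [mem_range] at hi
      rw [mem_filter, mem_range]
      omega
    · intro j hj
      have := (mem_filter.1 hj).2
      omega
    · intro i hi
      omega
    · intro j hj
      have := (mem_filter.1 hj).2
      have h3 : j - 1 + 1 = j := by omega
      rw [h3]
  have h3 : ∑ j ∈ range K, (if 1 ≤ K - 1 - j ∧ K - 1 - j ≤ H then (ex d (K - 1 - j - 1) : ℤ) * (b : ℤ) ^ j else 0) =
      ∑ i ∈ range H, (ex d i : ℤ) * (b : ℤ) ^ (K - 1 - (i + 1)) := by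
    rw [← sum_filter]
    refine sum_nbij' (fun j => K - 1 - j - 1) (fun i => K - 1 - (i + 1)) ?_ ?_ ?_ ?_ ?_
    · intro j hj
      have := (mem_filter.1 hj).2
      rw [mem_range]
      omega
    · intro i hi
      rw [mem_range] at hi
      rw [mem_filter, mem_range]
      omega
    · intro j hj
      have := (mem_filter.1 hj).2
      have := mem_range.1 (mem_filter.1 hj).1
      omega
    · intro i hi
      have := mem_range.1 hi
      omega
    · intro j hj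
      have := (mem_filter.1 hj).2
      have h4 := mem_range.1 (mem_filter.1 hj).1
      have h3 : K - 1 - (K - 1 - j - 1 + 1) = j := by omega
      rw [h3]
  rw [h2, h3, ← sum_add_distrib, Finset.sum_range]
  refine sum_congr rfl fun i _ => ?_
  rw [ex_coe]
  unfold gg
  push_cast
  ring

lemma nX_inj (b K H : ℕ) (A : ℕ → Finset ℕ) (hA : Ok b A) (hb : 2 ≤ b) (a : ℕ → ℕ) (ha : ∀ j, a j ∈ A j)
    (ha0 : a 0 ≠ 0) (hK : 2 * H + 2 ≤ K) (d d' : Fin H → ℕ) (hd : d ∈ fam A H) (hd' : d' ∈ fam A H)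
    (h : nX b K H a d = nX b K H a d') : d = d' := by
  have h1 : lX K H a d = lX K H a d' := by
    rw [← digits_nX b K H A hA hb a ha ha0 d hd hK, h, digits_nX b K H A hA hb a ha ha0 d' hd' hK]
  funext i
  have hi := i.isLt
  have h3 : (lX K H a d)[i.val + 1]'(by rw [lX_length]; omega) = (lX K H a d')[i.val + 1]'(by rw [lX_length]; omega) := by
    simp only [h1]
  rw [lX_get, lX_get] at h3
  unfold dgX at h3
  rw [if_pos (by omega), if_pos (by omega), Nat.add_sub_cancel, ex_coe, ex_coe] at h3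
  exact h3

end Pool.Agent.Run7.h620.PX
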