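import Pool.Agent.Run7.h620.PX.Fr

set_option autoImplicit false

/-! The Fourier bound and residue classes, digits in given sets depending on the place. -/

namespace Pool.Agent.Run7.h620.PX

open Finset Pool.Agent.Run7.h620.PD
open Pool.Agent.H469R2.NK (e norm_e e_add e_zero)

lemma yX_pos (b R : ℕ) (hb : 1 ≤ b) (hR : 1 ≤ R) : 0 < yX b R := by
  unfold yX
  have hR' : 1 ≤ R * Dl b := Nat.mul_pos hR (Dl_pos b)
  have h1 := del_pos b _ hb hR'
  have h2 := del_le b _ hb hR'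
  have hb0 : (1 : ℝ) ≤ b := by exact_mod_cast hb
  have h3 : 2 * (del b (R * Dl b)) ^ 2 / b ≤ 1 / 2 := by
    rw [div_le_iff₀ (by linarith)]
    nlinarith
  linarith

lemma yX_lt (b R : ℕ) (hb : 1 ≤ b) (hR : 1 ≤ R) : yX b R < 1 := by
  unfold yX
  have hR' : 1 ≤ R * Dl b := Nat.mul_pos hR (Dl_pos b)
  have h1 := del_pos b _ hb hR'
  have hb0 : (0 : ℝ) < b := by exact_mod_cast hb
  have h3 : 0 < 2 * (del b (R * Dl b)) ^ 2 / b := by positivity
  linarith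

/-- digit sets with at least two elements -/
def Ok (b : ℕ) (A : ℕ → Finset ℕ) : Prop := ∀ i, A i ⊆ range b ∧ 2 ≤ (A i).card

lemma Ok.pair {b : ℕ} {A : ℕ → Finset ℕ} (h : Ok b A) (i : ℕ) : ∃ x ∈ A i, ∃ y ∈ A i, y ≠ x := by
  obtain ⟨x, hx, y, hy, hxy⟩ := Finset.one_lt_card.1 (show 1 < (A i).card by have := (h i).2; omega)
  exact ⟨x, hx, y, hy, Ne.symm hxy⟩

lemma prodX (A : ℕ → Finset ℕ) (b K H R : ℕ) (hb : 1 ≤ b) (hR : 1 ≤ R) (hH : 1 ≤ H) (hK : H + 1 ≤ K) (hA : Ok b A)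
    (θ : ℝ) : ∏ t ∈ range H, cX A b K θ (t + 1) ≤
      (yX b R) ^ (bet b ((R : ℝ) * (((b : ℝ) ^ 2 - 1) * Dl b) * θ) (K - 1 - H) (H - 1)) := by
  obtain ⟨H, rfl⟩ : ∃ H', H = H' + 1 := ⟨H - 1, by omega⟩
  set ϑ : ℝ := (R : ℝ) * (((b : ℝ) ^ 2 - 1) * Dl b) * θ with hϑ
  set c : ℕ → ℝ := fun i => cX A b K θ i with hc
  have hc0 : ∀ i, 0 ≤ c i := fun i => cX_nonneg A b K θ i
  have hc1 : ∀ i, c i ≤ 1 := fun i => cX_le A b K θ i
  have hy := yX_pos b R hb hR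
  have hy1 := yX_lt b R hb hR
  have e1 : ∏ t ∈ range (H + 1), c (t + 1) ≤ ∏ t ∈ range H, c (t + 1) := by
    rw [prod_range_succ]
    exact mul_le_of_le_one_right (prod_nonneg fun t _ => hc0 _) (hc1 _)
  have e2 : ∏ t ∈ range (H + 1), c (t + 1) ≤ ∏ t ∈ range H, c (t + 2) := by
    rw [prod_range_succ']
    exact mul_le_of_le_one_right (prod_nonneg fun t _ => hc0 _) (hc1 _)
  have h0 : 0 ≤ ∏ t ∈ range (H + 1), c (t + 1) := prod_nonneg fun t _ => hc0 _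
  set ρ : ℝ := 1 - 4 * (del b (R * Dl b)) ^ 2 / b with hρ
  have hR' : 1 ≤ R * Dl b := Nat.mul_pos hR (Dl_pos b)
  have hδ := del_pos b (R * Dl b) hb hR'
  have hδ1 := del_le b (R * Dl b) hb hR'
  have hb0 : (1 : ℝ) ≤ b := by exact_mod_cast hb
  have hρ0 : 0 ≤ ρ := by
    rw [hρ]
    have : 4 * (del b (R * Dl b)) ^ 2 / b ≤ 1 := by
      rw [div_le_iff₀ (by linarith)]
      nlinarith
    linarith
  have e3 : (∏ t ∈ range (H + 1), c (t + 1)) ^ 2 ≤ ∏ t ∈ range H, (c (t + 1) * c (t + 2)) := by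
    rw [prod_mul_distrib, sq]
    exact mul_le_mul e1 e2 h0 (prod_nonneg fun t _ => hc0 _)
  have e4 : ∏ t ∈ range H, (c (t + 1) * c (t + 2)) ≤
      ∏ t ∈ range H, (if dig b ϑ (K - 3 - t) = 0 then (1 : ℝ) else ρ) := by
    refine prod_le_prod (fun t _ => mul_nonneg (hc0 _) (hc0 _)) fun t ht => ?_
    rw [mem_range] at ht
    split_ifs with h
    · exact mul_le_one₀ (hc1 _) (hc0 _) (hc1 _)
    · obtain ⟨x, hx, y, hy, hxy⟩ := hA.pair (t + 1)
      obtain ⟨x', hx', y', hy', hxy'⟩ := hA.pair (t + 1 + 1)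
      have := pairX A b K (t + 1) R hb hR (by omega) θ (fun i => (hA i).1) x y x' y' hx hy hxy hx' hy' hxy' (by
        have : K - 2 - (t + 1) = K - 3 - t := by omega
        rw [this]
        exact h)
      exact this
  have e5 : ∏ t ∈ range H, (if dig b ϑ (K - 3 - t) = 0 then (1 : ℝ) else ρ) =
      ρ ^ (bet b ϑ (K - 1 - (H + 1)) (H + 1 - 1)) := by
    unfold bet
    rw [← prod_pow_eq_pow_sum, ← prod_range_reflect, Nat.add_sub_cancel]
    refine prod_congr rfl fun t ht => ?_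
    rw [mem_range] at ht
    have : K - 3 - (H - 1 - t) = K - 1 - (H + 1) + t := by omega
    rw [this]
    split_ifs <;> simp
  have e6 : ρ ≤ (yX b R) ^ 2 := by
    unfold yX
    rw [hρ]
    have h1 : (1 - 2 * (del b (R * Dl b)) ^ 2 / b) ^ 2 = 1 - 4 * (del b (R * Dl b)) ^ 2 / b +
        (2 * (del b (R * Dl b)) ^ 2 / b) ^ 2 := by ring
    rw [h1]
    have := sq_nonneg (2 * (del b (R * Dl b)) ^ 2 / (b : ℝ))
    linarith
  have e7 : (∏ t ∈ range (H + 1), c (t + 1)) ^ 2 ≤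
      ((yX b R) ^ (bet b ϑ (K - 1 - (H + 1)) (H + 1 - 1))) ^ 2 := by
    calc _ ≤ _ := e3
      _ ≤ _ := e4
      _ = _ := e5
      _ ≤ ((yX b R) ^ 2) ^ (bet b ϑ (K - 1 - (H + 1)) (H + 1 - 1)) := pow_le_pow_left₀ hρ0 e6 _
      _ = _ := by rw [← pow_mul, ← pow_mul, mul_comm]
  exact (pow_le_pow_iff_left₀ h0 (by positivity) (by norm_num)).1 e7

/-- the number of the members of the family -/
def XX (A : ℕ → Finset ℕ) (H : ℕ) : ℕ := ∏ t ∈ range H, (A (t + 1)).card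

lemma fam_card (A : ℕ → Finset ℕ) (H : ℕ) : (fam A H).card = XX A H := by
  unfold fam XX
  rw [Fintype.card_piFinset, Finset.prod_range]

lemma XX_pos {b : ℕ} {A : ℕ → Finset ℕ} (h : Ok b A) (H : ℕ) : 0 < XX A H :=
  prod_pos fun t _ => by have := (h (t + 1)).2; omega

/-- the general Fourier bound -/
def FB {ι : Type} (s : Finset ι) (v : ι → ℤ) (b : ℕ) (X y : ℝ) (R : ℕ) (U : ℤ) (j V : ℕ) : Prop :=
  ∀ θ : ℝ, ‖∑ i ∈ s, e (θ * (v i : ℝ))‖ ≤ X * y ^ (bet b ((R : ℝ) * U * θ) j V)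

/-- the multiplier -/
def UX (b : ℕ) : ℤ := ((b : ℤ) ^ 2 - 1) * (Dl b : ℤ)

lemma fourX (A : ℕ → Finset ℕ) (b K H R : ℕ) (hb : 1 ≤ b) (hR : 1 ≤ R) (hH : 1 ≤ H) (hK : H + 1 ≤ K) (hA : Ok b A)
    (n₀ : ℤ) : FB (fam A H) (vd b K H n₀) b (XX A H) (yX b R) R (UX b) (K - 1 - H) (H - 1) := by
  intro θ
  have h1 : ∑ d ∈ fam A H, e (θ * (vd b K H n₀ d : ℝ)) =
      e (θ * n₀) * ∏ i : Fin H, ∑ a ∈ A (i.val + 1), e (θ * ((a : ℝ) * (gg b K (i.val + 1) : ℝ))) := by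
    rw [Finset.prod_univ_sum, mul_sum]
    refine sum_congr rfl fun d _ => ?_
    rw [← e_sum, ← e_add]
    congr 1
    unfold vd
    push_cast
    rw [mul_add, mul_sum]
  rw [h1, norm_mul, norm_e, one_mul, norm_prod]
  have h2 : ∏ i : Fin H, ‖∑ a ∈ A (i.val + 1), e (θ * ((a : ℝ) * (gg b K (i.val + 1) : ℝ)))‖ =
      (XX A H : ℝ) * ∏ t ∈ range H, cX A b K θ (t + 1) := by
    unfold XX
    push_cast
    rw [← prod_mul_distrib, Finset.prod_range]
    refine prod_congr rfl fun i _ => ?_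
    unfold cX
    have : ((A (i.val + 1)).card : ℝ) ≠ 0 := by
      have := (hA (i.val + 1)).2
      have h3 : (A (i.val + 1)).card ≠ 0 := by omega
      exact_mod_cast h3
    rw [mul_div_assoc', mul_div_cancel_left₀ _ this]
  rw [h2]
  apply mul_le_mul_of_nonneg_left _ (Nat.cast_nonneg _)
  refine (prodX A b K H R hb hR hH hK hA θ).trans (le_of_eq ?_)
  unfold UX
  push_cast
  rfl

lemma cnt_gen {ι : Type} (s : Finset ι) (v : ι → ℤ) (b : ℕ) (X y : ℝ) (R P f : ℕ) (U : ℤ) (j V : ℕ) (r : ℤ)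
    (hF : FB s v b X y R U j V) (hR : 1 ≤ R) (hP : 0 < P) (hf : 0 < f) :
    |cnt s v (R * P * f) r - cnt s v (R * P) r / f| ≤ X / ((P * f : ℕ) : ℝ) * GG b y U j V P f := by
  have hRr : (0 : ℝ) < R := by exact_mod_cast hR
  have hPr : (0 : ℝ) < P := by exact_mod_cast hP
  have hfr : (0 : ℝ) < f := by exact_mod_cast hf
  refine (cnt_diff s v (R * P) f (Nat.mul_pos hR hP) hf r).trans ?_
  set F : ℕ → ℝ := fun h => if f ∣ h then 0 else
    y ^ (bet b ((U : ℝ) * ((h : ℝ) / ((P * f : ℕ) : ℝ))) j V) with hF'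
  have hper : ∀ h, F (h + P * f) = F h := by
    intro h
    simp only [hF']
    have e1 : f ∣ h + P * f ↔ f ∣ h := (Nat.dvd_add_left (dvd_mul_left f P))
    have e2 : (U : ℝ) * (((h + P * f : ℕ) : ℝ) / ((P * f : ℕ) : ℝ)) =
        (U : ℝ) * ((h : ℝ) / ((P * f : ℕ) : ℝ)) + (U : ℤ) := by
      push_cast
      field_simp
    rw [e2, bet_add_int]
    simp only [e1]
  have h1 : ∀ h ∈ (range (R * P * f)).filter (fun h => ¬ f ∣ h),
      ‖∑ i ∈ s, e ((h : ℝ) / ((R * P * f : ℕ) : ℝ) * (v i : ℝ))‖ ≤ X * F h := by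
    intro h hh
    rw [mem_filter] at hh
    have h2 := hF ((h : ℝ) / ((R * P * f : ℕ) : ℝ))
    refine h2.trans (le_of_eq ?_)
    simp only [hF', if_neg hh.2]
    congr 3
    push_cast
    field_simp
  have h2 : ∑ h ∈ (range (R * P * f)).filter (fun h => ¬ f ∣ h), X * F h =
      R * (X * GG b y U j V P f) := by
    rw [← mul_sum]
    have e1 : ∑ h ∈ (range (R * P * f)).filter (fun h => ¬ f ∣ h), F h = ∑ h ∈ range (R * (P * f)), F h := by
      rw [sum_filter, mul_assoc]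
      refine sum_congr rfl fun h _ => ?_
      simp only [hF']
      split_ifs <;> simp_all
    have e2 : GG b y U j V P f = ∑ h ∈ range (P * f), F h := by
      unfold GG
      rw [sum_filter]
      refine sum_congr rfl fun h _ => ?_
      simp only [hF']
      split_ifs <;> simp_all
    rw [e1, sum_range_periodic (P * f) R F hper, e2]
    ring
  calc (1 / ((R * P * f : ℕ) : ℝ)) * ∑ h ∈ (range (R * P * f)).filter (fun h => ¬ f ∣ h),
        ‖∑ i ∈ s, e ((h : ℝ) / ((R * P * f : ℕ) : ℝ) * (v i : ℝ))‖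
      ≤ (1 / ((R * P * f : ℕ) : ℝ)) * ∑ h ∈ (range (R * P * f)).filter (fun h => ¬ f ∣ h), X * F h := by
        apply mul_le_mul_of_nonneg_left (sum_le_sum h1) (by positivity)
    _ = (1 / ((R * P * f : ℕ) : ℝ)) * (R * (X * GG b y U j V P f)) := by rw [h2]
    _ = _ := by
        push_cast
        field_simp

end Pool.Agent.Run7.h620.PX
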