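import Pool.Agent.Run7.h620.PD.Count

set_option autoImplicit false

/-! Exponential sums over palindromes whose digits are in given sets, depending on the place. -/

namespace Pool.Agent.Run7.h620.PX

open Finset Pool.Agent.Run7.h620.PD
open Pool.Agent.H469R2.NK (e norm_e e_add e_zero)

/-- the value of the digits `d 0, …, d (H - 1)` at the places `1, …, H` -/
def vd (b K H : ℕ) (n₀ : ℤ) (d : Fin H → ℕ) : ℤ := n₀ + ∑ i : Fin H, (d i : ℤ) * (gg b K (i.val + 1) : ℤ)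

/-- the family -/
def fam (A : ℕ → Finset ℕ) (H : ℕ) : Finset (Fin H → ℕ) := Fintype.piFinset (fun i => A (i.val + 1))

/-- a common multiple of the products of two differences of digits -/
def Dl (b : ℕ) : ℕ := (b - 1).factorial ^ 2

/-- the factor of a break -/
noncomputable def yX (b R : ℕ) : ℝ := 1 - 2 * (del b (R * Dl b)) ^ 2 / b

/-- the factor of a place -/
noncomputable def cX (A : ℕ → Finset ℕ) (b K : ℕ) (θ : ℝ) (i : ℕ) : ℝ :=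
  ‖∑ a ∈ A i, e (θ * ((a : ℝ) * (gg b K i : ℝ)))‖ / (A i).card

lemma Dl_pos (b : ℕ) : 0 < Dl b := by
  unfold Dl
  exact Nat.pow_pos (Nat.factorial_pos _)

lemma cX_nonneg (A : ℕ → Finset ℕ) (b K : ℕ) (θ : ℝ) (i : ℕ) : 0 ≤ cX A b K θ i := by
  unfold cX
  positivity

lemma cX_le (A : ℕ → Finset ℕ) (b K : ℕ) (θ : ℝ) (i : ℕ) : cX A b K θ i ≤ 1 := by
  unfold cX
  apply div_le_one_of_le₀ _ (Nat.cast_nonneg _)
  refine (norm_sum_le _ _).trans ?_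
  simp [norm_e]

lemma one_place (A : ℕ → Finset ℕ) (b K : ℕ) (θ : ℝ) (i : ℕ) (hA : A i ⊆ range b) (ei fi : ℕ) (he : ei ∈ A i)
    (hf : fi ∈ A i) (hef : fi ≠ ei) (δ : ℝ) (hδ : 0 ≤ δ)
    (h : ∀ n : ℤ, δ ≤ |θ * (((fi : ℝ) - ei) * (gg b K i : ℝ)) - n|) : cX A b K θ i ≤ 1 - 4 * δ ^ 2 / b := by
  classical
  have hcb : (A i).card ≤ b := by
    have := card_le_card hA
    rwa [card_range] at this
  have hc2 : 2 ≤ (A i).card := by
    have h1 : ({ei, fi} : Finset ℕ) ⊆ A i := by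
      intro x hx
      rw [mem_insert, mem_singleton] at hx
      rcases hx with rfl | rfl <;> assumption
    have := card_le_card h1
    rwa [card_pair (Ne.symm hef)] at this
  have hc0 : (0 : ℝ) < (A i).card := by
    have : 0 < (A i).card := by omega
    exact_mod_cast this
  have hb0 : (0 : ℝ) < b := by
    have : 0 < b := by omega
    exact_mod_cast this
  have h1 : ∑ a ∈ A i, e (θ * ((a : ℝ) * (gg b K i : ℝ))) =
      (e (θ * ((ei : ℝ) * (gg b K i : ℝ))) + e (θ * ((fi : ℝ) * (gg b K i : ℝ)))) +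
        ∑ a ∈ ((A i).erase ei).erase fi, e (θ * ((a : ℝ) * (gg b K i : ℝ))) := by
    rw [← add_sum_erase _ _ he, ← add_sum_erase ((A i).erase ei) _ (mem_erase.2 ⟨hef, hf⟩), add_assoc]
  have h2 : e (θ * ((ei : ℝ) * (gg b K i : ℝ))) + e (θ * ((fi : ℝ) * (gg b K i : ℝ))) =
      e (θ * ((ei : ℝ) * (gg b K i : ℝ))) * (1 + e (θ * (((fi : ℝ) - ei) * (gg b K i : ℝ)))) := by
    rw [mul_add, mul_one, ← e_add]
    congr 2
    ring
  have h3 : ‖∑ a ∈ ((A i).erase ei).erase fi, e (θ * ((a : ℝ) * (gg b K i : ℝ)))‖ ≤ (A i).card - 2 := by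
    refine (norm_sum_le _ _).trans ?_
    have h4 : (((A i).erase ei).erase fi).card = (A i).card - 2 := by
      rw [card_erase_of_mem (mem_erase.2 ⟨hef, hf⟩), card_erase_of_mem he]
      omega
    simp only [norm_e, sum_const, h4, nsmul_eq_mul, mul_one]
    rw [Nat.cast_sub hc2]
    norm_num
  have h4 : ‖e (θ * ((ei : ℝ) * (gg b K i : ℝ))) + e (θ * ((fi : ℝ) * (gg b K i : ℝ)))‖ ≤ 2 - 4 * δ ^ 2 := by
    rw [h2, norm_mul, norm_e, one_mul]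
    exact cos_dist _ δ hδ h
  have h5 : ‖∑ a ∈ A i, e (θ * ((a : ℝ) * (gg b K i : ℝ)))‖ ≤ (A i).card - 4 * δ ^ 2 := by
    rw [h1]
    refine (norm_add_le _ _).trans ?_
    linarith
  unfold cX
  rw [div_le_iff₀ hc0]
  refine h5.trans ?_
  have h6 : 4 * δ ^ 2 / b * (A i).card ≤ 4 * δ ^ 2 := by
    rw [div_mul_eq_mul_div, div_le_iff₀ hb0]
    have : ((A i).card : ℝ) ≤ b := by exact_mod_cast hcb
    gcongr
  linarith

lemma dvd_Dl (b : ℕ) (x y : ℕ) (hx : 0 < x) (hxb : x < b) (hy : 0 < y) (hyb : y < b) : x * y ∣ Dl b := by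
  unfold Dl
  rw [sq]
  exact Nat.mul_dvd_mul (Nat.dvd_factorial hx (by omega)) (Nat.dvd_factorial hy (by omega))

lemma pairX (A : ℕ → Finset ℕ) (b K i R : ℕ) (hb : 1 ≤ b) (hR : 1 ≤ R) (hi : i + 2 ≤ K) (θ : ℝ)
    (hA : ∀ i, A i ⊆ range b) (e₁ f₁ e₂ f₂ : ℕ) (he₁ : e₁ ∈ A i) (hf₁ : f₁ ∈ A i) (hef₁ : f₁ ≠ e₁)
    (he₂ : e₂ ∈ A (i + 1)) (hf₂ : f₂ ∈ A (i + 1)) (hef₂ : f₂ ≠ e₂)
    (hd : dig b ((R : ℝ) * (((b : ℝ) ^ 2 - 1) * Dl b) * θ) (K - 2 - i) ≠ 0) :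
    cX A b K θ i * cX A b K θ (i + 1) ≤ 1 - 4 * (del b (R * Dl b)) ^ 2 / b := by
  have hDl := Dl_pos b
  have hR' : 1 ≤ R * Dl b := Nat.mul_pos hR hDl
  have hδ := del_pos b (R * Dl b) hb hR'
  have hb0 : (0 : ℝ) < b := by exact_mod_cast hb
  have hRr : (0 : ℝ) < R := by exact_mod_cast hR
  have hDr : (0 : ℝ) < Dl b := by exact_mod_cast hDl
  have p1 := cX_nonneg A b K θ i
  have p2 := cX_nonneg A b K θ (i + 1)
  have q1 := cX_le A b K θ i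
  have q2 := cX_le A b K θ (i + 1)
  set δ := del b (R * Dl b) with hδd
  by_cases h1 : ∀ n : ℤ, δ ≤ |θ * (((f₁ : ℝ) - e₁) * (gg b K i : ℝ)) - n|
  · have := one_place A b K θ i (hA i) e₁ f₁ he₁ hf₁ hef₁ δ hδ.le h1
    nlinarith
  by_cases h2 : ∀ n : ℤ, δ ≤ |θ * (((f₂ : ℝ) - e₂) * (gg b K (i + 1) : ℝ)) - n|
  · have := one_place A b K θ (i + 1) (hA (i + 1)) e₂ f₂ he₂ hf₂ hef₂ δ hδ.le h2
    nlinarith
  exfalso
  push Not at h1 h2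
  obtain ⟨n₁, h1⟩ := h1
  obtain ⟨n₂, h2⟩ := h2
  obtain ⟨D₁, hD₁⟩ : ∃ D₁ : ℤ, D₁ = (f₁ : ℤ) - e₁ := ⟨_, rfl⟩
  obtain ⟨D₂, hD₂⟩ : ∃ D₂ : ℤ, D₂ = (f₂ : ℤ) - e₂ := ⟨_, rfl⟩
  have b1 := mem_range.1 (hA i he₁)
  have b2 := mem_range.1 (hA i hf₁)
  have b3 := mem_range.1 (hA (i + 1) he₂)
  have b4 := mem_range.1 (hA (i + 1) hf₂)
  have hdv : D₁ * D₂ ∣ (Dl b : ℤ) := by
    rw [← Int.natAbs_dvd, Int.natAbs_mul]
    exact_mod_cast dvd_Dl b D₁.natAbs D₂.natAbs (by omega) (by omega) (by omega) (by omega)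
  obtain ⟨c, hc⟩ := hdv
  have hx₁ : ((f₁ : ℝ) - e₁) = (D₁ : ℝ) := by rw [hD₁]; push_cast; ring
  have hx₂ : ((f₂ : ℝ) - e₂) = (D₂ : ℝ) := by rw [hD₂]; push_cast; ring
  rw [hx₁] at h1
  rw [hx₂] at h2
  set x₁ : ℝ := θ * ((D₁ : ℝ) * (gg b K i : ℝ)) with hx₁'
  set x₂ : ℝ := θ * ((D₂ : ℝ) * (gg b K (i + 1) : ℝ)) with hx₂'
  have hcr : (Dl b : ℝ) = D₁ * D₂ * c := by exact_mod_cast hc
  have hD₁0 : D₁ ≠ 0 := by omega
  have hD₂0 : D₂ ≠ 0 := by omega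
  have hle₁ : |((c * D₂ : ℤ) : ℝ)| ≤ Dl b := by
    have h3 : ((c * D₂).natAbs) ∣ Dl b := by
      rw [← Int.natCast_dvd_natCast, Int.natAbs_dvd, hc]
      exact ⟨D₁, by ring⟩
    have h4 := Nat.le_of_dvd hDl h3
    rw [← Int.cast_abs, Int.abs_eq_natAbs]
    exact_mod_cast h4
  have hle₂ : |((c * D₁ : ℤ) : ℝ)| ≤ Dl b := by
    have h3 : ((c * D₁).natAbs) ∣ Dl b := by
      rw [← Int.natCast_dvd_natCast, Int.natAbs_dvd, hc]
      exact ⟨D₂, by ring⟩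
    have h4 := Nat.le_of_dvd hDl h3
    rw [← Int.cast_abs, Int.abs_eq_natAbs]
    exact_mod_cast h4
  have h3 := sd_of_dig_ne b hb _ _ hd
  have h4 := sd_le_dist b ((R : ℝ) * (((b : ℝ) ^ 2 - 1) * Dl b) * θ) (K - 2 - i)
    ((R : ℤ) * ((c * D₂) * (b * n₁) - (c * D₁) * n₂))
  have h5 : (b : ℝ) ^ (K - 2 - i) * ((R : ℝ) * (((b : ℝ) ^ 2 - 1) * Dl b) * θ) -
      (((R : ℤ) * ((c * D₂) * (b * n₁) - (c * D₁) * n₂) : ℤ) : ℝ) =
      R * (((c * D₂ : ℤ) : ℝ) * (b * (x₁ - n₁)) - ((c * D₁ : ℤ) : ℝ) * (x₂ - n₂)) := by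
    have h6 := gg_rel b K i hi
    rw [hx₁', hx₂', hcr]
    push_cast
    linear_combination (-(R : ℝ) * c * D₁ * D₂ * θ) * h6
  rw [h5] at h4
  have h6 : |(R : ℝ) * (((c * D₂ : ℤ) : ℝ) * (b * (x₁ - n₁)) - ((c * D₁ : ℤ) : ℝ) * (x₂ - n₂))| ≤
      R * (Dl b * (b * |x₁ - n₁|) + Dl b * |x₂ - n₂|) := by
    rw [abs_mul, abs_of_nonneg hRr.le]
    apply mul_le_mul_of_nonneg_left _ hRr.le
    refine (abs_sub _ _).trans ?_
    rw [abs_mul, abs_mul, abs_mul, abs_of_nonneg hb0.le]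
    gcongr
  have h7 : (R : ℝ) * (Dl b * (b * |x₁ - n₁|) + Dl b * |x₂ - n₂|) < R * (Dl b * (b * δ) + Dl b * δ) := by
    gcongr
  have h8 : (R : ℝ) * (Dl b * (b * δ) + Dl b * δ) = 1 / (2 * (b : ℝ)) := by
    rw [hδd]
    unfold del
    push_cast
    field_simp
  linarith

end Pool.Agent.Run7.h620.PX
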