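import Pool.Agent.Run7.h620.PX.Dx
import Pool.Agent.Run7.h620.PX.Gx
import Pool.Agent.Run7.h620.PX.Cg
import Pool.Agent.Run7.h620.PD.Zq
import Pool.Agent.Run7.h620.PD.Om

set_option autoImplicit false

/-! Almost primes among the palindromes with digits in given sets depending on the place. -/

namespace Pool.Agent.Run7.h620.PX

open Finset Polynomial Filter Pool.Agent.Run7.h620.PD

theorem lowX (b : ℕ) (hb : 2 ≤ b) :
    ∃ c : ℝ, 0 < c ∧ ∃ r : ℕ, ∀ᶠ K : ℕ in atTop, ∀ A : ℕ → Finset ℕ, Ok b A →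
      ∃ P : Finset ℕ, c * (XX A ((K - 2) / 2) : ℝ) / K ≤ P.card ∧
        ∀ n ∈ P, n < b ^ K ∧ (Nat.digits b n).length = K ∧ (Nat.digits b n).reverse = Nat.digits b n ∧
          (∀ j < K, (Nat.digits b n).getD j 0 ∈ A (min j (K - 1 - j))) ∧
          ArithmeticFunction.cardFactors n ≤ r := by
  classical
  obtain ⟨N, hN3, hN2, hcore⟩ := core5 b hb (UX b) (UX_ne b hb) 1 le_rfl
  obtain ⟨Mf, m, hMf0, hMfp, hMfm, hgood⟩ := goodX b hb N 1
  have hMfr : (0 : ℝ) < Mf := by exact_mod_cast hMf0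
  obtain ⟨c₁, hc₁, hWlow⟩ := Wq_low N hN3
  obtain ⟨T₀, hT₀, η₀, hη₀, M₁, hM₁, hev⟩ := hcore N le_rfl Mf hMf0 hMfp (yX b Mf) (yX_pos b Mf (by omega) hMf0)
    (yX_lt b Mf (by omega) hMf0)
  obtain ⟨κ₀, hκ₀⟩ : ∃ κ₀ : ℝ, κ₀ = 1 / (2 * Mf) := ⟨_, rfl⟩
  have hκ₀0 : 0 < κ₀ := by rw [hκ₀]; positivity
  have hcast := tendsto_natCast_atTop_atTop (R := ℝ)
  refine ⟨κ₀ * c₁ / 8, by positivity, N * m + b * (2 * M₁), ?_⟩
  filter_upwards [hev, hgood, hcast.eventually_ge_atTop (8 * T₀ / (κ₀ * c₁)), eventually_ge_atTop 12] with K hK hgK hK8 hK12 A hA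
  obtain ⟨J, hNJ, hKJ, hJK', hKJ2, hmain⟩ := hK
  have hJK : 2 ^ J ≤ K := by
    calc 2 ^ J ≤ M₁ * 2 ^ J := Nat.le_mul_of_pos_left _ (by omega)
      _ ≤ K := hJK'
  have hK0 : (0 : ℝ) < K := by
    have : 0 < K := by omega
    exact_mod_cast this
  -- the fixed digits
  have hch : ∀ j, ∃ x ∈ A j, x ≠ 0 := by
    intro j
    obtain ⟨x, hx, y, hy, hxy⟩ := hA.pair j
    by_cases h0 : x = 0
    · exact ⟨y, hy, by rw [← h0]; exact hxy⟩
    · exact ⟨x, hx, h0⟩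
  choose a ha ha0 using hch
  obtain ⟨H, hH⟩ : ∃ H : ℕ, H = (K - 2) / 2 := ⟨_, rfl⟩
  rw [← hH] at hmain hgK ⊢
  have hHK : 2 * H + 2 ≤ K := by omega
  obtain ⟨X, hX⟩ : ∃ X : ℝ, X = (XX A H : ℝ) := ⟨_, rfl⟩
  have hX0 : 0 < X := by
    rw [hX]
    exact_mod_cast XX_pos hA H
  obtain ⟨c₀, hc₀⟩ : ∃ c₀ : ℤ, c₀ = cc b K H a := ⟨_, rfl⟩
  obtain ⟨s₀, hs₀, hs₀'⟩ := hgK A hA c₀ (fun _ => {0}) (fun p => by simp)
  have hFB := fourX A b K H Mf (by omega) hMf0 (by omega) (by omega) hA c₀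
  rw [← hX] at hFB hs₀ ⊢
  have hnneq : ∀ d : Fin H → ℕ, ((nX b K H a d : ℕ) : ℤ) = vd b K H c₀ d := by
    intro d
    rw [nX_eq b K H a d hHK, hc₀]
  obtain ⟨hc1, hc2⟩ := hmain 1 (Fin H → ℕ) (fam A H) (vd b K H c₀) X (Zq 1) hX0.le hFB one_pos (by
    rw [Nat.cast_one]
    apply Real.one_le_exp
    apply div_nonneg (by positivity)
    exact Real.log_natCast_nonneg _) (Nat.coprime_one_left Mf) (by
      rw [Nat.cast_one]
      exact isCoprime_one_left) (fun p hp _ => ⟨Zq_sub 1 p hp, Zq_le 1 p⟩) (by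
      intro p hp _ hpq
      have := Nat.le_of_dvd one_pos hpq
      have := hp.two_le
      omega) (by
      intro d _
      rw [← hnneq d]
      exact Int.natCast_nonneg _) s₀
  rw [mul_one] at hc2
  rw [Nat.cast_one, div_one] at hc2
  obtain ⟨A', hA'⟩ : ∃ A' : ℝ, A' = cnt (fam A H) (vd b K H c₀) Mf s₀ := ⟨_, rfl⟩
  obtain ⟨W, hW⟩ : ∃ W : ℝ, W = ∏ p ∈ PP N J, (1 - ((Zq 1 p).card : ℝ) / (p : ℝ)) := ⟨_, rfl⟩
  rw [← hA', ← hW] at hc2
  rw [← hA'] at hs₀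
  obtain ⟨G, hG⟩ : ∃ G : Finset (Fin H → ℕ), G = (((fam A H).filter (fun d => ((Mf : ℕ) : ℤ) ∣ vd b K H c₀ d - s₀)).filter
          (fun d => ∀ p ∈ PP N J, ¬ ∃ z ∈ Zq 1 p, (p : ℤ) ∣ vd b K H c₀ d - z)) := ⟨_, rfl⟩
  have hc2' : |(G.card : ℝ) - A' * W| ≤ 1 / 2 * (A' * W) + X * (T₀ / (K : ℝ) ^ (1 + 1)) := by
    rw [hG]
    refine le_trans (le_of_eq ?_) hc2
    congr!
  have hAlow : κ₀ * X ≤ A' := by
    refine le_trans (le_of_eq ?_) hs₀
    rw [hκ₀]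
    ring
  have hTK2 : T₀ / K ≤ κ₀ * c₁ / 8 := by
    rw [div_le_iff₀ hK0]
    rw [div_le_iff₀ (by positivity)] at hK8
    linarith
  have hs1 : 1 ≤ sing 1 := one_le_sing 1
  have hWl : c₁ / K ≤ W := by
    rw [hW]
    refine le_trans ?_ (hWlow J K 1 (by omega) hNJ hKJ one_pos (Nat.one_le_two_pow))
    have h1 : (2 : ℝ) ^ J ≤ K := by exact_mod_cast hJK
    have h2 : c₁ * 1 ≤ c₁ * sing 1 := mul_le_mul_of_nonneg_left hs1 hc₁.le
    rw [mul_one] at h2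
    have h3 : c₁ / K ≤ c₁ / 2 ^ J := div_le_div_of_nonneg_left hc₁.le (by positivity) h1
    refine h3.trans ?_
    gcongr
    simpa using h2
  have hGlow : κ₀ * c₁ / 8 * X / K ≤ G.card := by
    have h1 := (abs_le.1 hc2').1
    have h2 : (κ₀ * X) * (c₁ / K) ≤ A' * W := by
      apply mul_le_mul hAlow hWl
      · positivity
      · exact le_trans (by positivity) hAlow
    have h3 : X * (T₀ / (K : ℝ) ^ (1 + 1)) ≤ κ₀ * c₁ / 8 * X / K := by
      calc X * (T₀ / (K : ℝ) ^ (1 + 1)) = X * (T₀ / K) / K := by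
            field_simp
        _ ≤ X * (κ₀ * c₁ / 8) / K := by gcongr
        _ = _ := by ring
    have h4 : (κ₀ * X) * (c₁ / K) = 8 * (κ₀ * c₁ / 8 * X / K) := by ring
    have h6 : 0 ≤ κ₀ * c₁ / 8 * X / K := by positivity
    linarith
  refine ⟨G.image (fun d => nX b K H a d), ?_, ?_⟩
  · rw [card_image_of_injOn]
    · exact hGlow
    · intro d hd d' hd' h
      rw [mem_coe, hG, mem_filter, mem_filter] at hd hd'
      exact nX_inj b K H A hA hb a ha (ha0 0) hHK d d' hd.1.1 hd'.1.1 h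
  · intro n hn
    rw [mem_image] at hn
    obtain ⟨d, hd, rfl⟩ := hn
    rw [hG, mem_filter, mem_filter] at hd
    obtain ⟨⟨hd1, hd2⟩, hd3⟩ := hd
    have hdig := digits_nX b K H A hA hb a ha (ha0 0) d hd1 hHK
    have hlen2 : (Nat.digits b (nX b K H a d)).length = K := by
      rw [hdig, lX_length]
    have hlt : nX b K H a d < b ^ K := by
      have := Nat.lt_base_pow_length_digits (b := b) (m := nX b K H a d) (by omega)
      rwa [hlen2] at this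
    rw [← hnneq d] at hd2
    rw [← hnneq d] at hd3
    refine ⟨hlt, hlen2, by rw [hdig, lX_reverse K H a d hHK], ?_, ?_⟩
    · intro j hj
      rw [hdig, List.getD_eq_getElem _ _ (by rw [lX_length]; exact hj), lX_get]
      exact dgX_mem K H A a ha d hd1 hHK j hj
    obtain ⟨n, hn⟩ : ∃ n : ℕ, n = nX b K H a d := ⟨_, rfl⟩
    rw [← hn] at hd2 hd3 hlen2 hlt ⊢
    have h6 : ∀ p : ℕ, p.Prime → p ≤ N → ¬ p ^ m ∣ n := by
      intro p hp hpN hdvd
      apply hs₀' p hp hpN 0 (mem_singleton_self _)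
      have h8 : ((p ^ m : ℕ) : ℤ) ∣ (n : ℤ) - s₀ := dvd_trans (by exact_mod_cast hMfm p hp hpN) hd2
      have h9 := dvd_sub (Int.natCast_dvd_natCast.2 hdvd) h8
      rwa [sub_sub_cancel, ← sub_zero s₀] at h9
    have hn0 : n ≠ 0 := by
      intro h0
      rw [h0, Nat.digits_zero, List.length_nil] at hlen2
      omega
    apply omega_bound n N m (2 * M₁) K b hn0 h6 ?_ (by omega) ?_
    rotate_left
    · calc n ≤ b ^ K := hlt.le
        _ ≤ (2 ^ b) ^ K := Nat.pow_le_pow_left (Nat.lt_two_pow_self).le _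
        _ = 2 ^ (K * b) := by rw [← pow_mul, mul_comm]
    intro p hp hpN hpK hpn
    have hpp : p ∈ PP N J := by
      rw [mem_PP]
      refine ⟨hp, hpN, ?_⟩
      by_contra hcon
      push Not at hcon
      have g3 : K ≤ 2 ^ J * (2 * M₁) := by
        calc K ≤ M₁ * 2 ^ (J + 1) := hKJ2.le
          _ = 2 ^ J * (2 * M₁) := by rw [pow_succ]; ring
      have g4 : 2 ^ K ≤ (2 ^ 2 ^ J) ^ (2 * M₁) := by
        rw [← pow_mul]
        exact Nat.pow_le_pow_right (by norm_num) g3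
      have g5 : (2 ^ 2 ^ J) ^ (2 * M₁) < p ^ (2 * M₁) := by
        apply Nat.pow_lt_pow_left hcon
        omega
      omega
    apply hd3 p hpp
    refine ⟨0, ?_, ?_⟩
    · unfold Zq
      rw [if_neg]
      · exact mem_singleton_self _
      · intro h1
        have := Nat.le_of_dvd one_pos h1
        have := hp.two_le
        omega
    · rw [Nat.cast_zero, sub_zero]
      exact_mod_cast hpn

end Pool.Agent.Run7.h620.PX
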