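import Pool.Agent.Run7.h620.PX.Fo
import Pool.Agent.Run7.h620.PD.Poly

set_option autoImplicit false

/-! The sieve for a family with a Fourier bound. -/

namespace Pool.Agent.Run7.h620.PX

open Finset Pool.Agent.Run7.h620.PD

open Classical in
/-- the sieve in a residue class, at most `κ` classes for every prime -/
theorem sieve_fb : ∃ C : ℕ, 1 ≤ C ∧ ∀ (κ b R P J z0 : ℕ) (ι : Type) (s : Finset ι) (v : ι → ℤ) (X y : ℝ) (U : ℤ) (j V : ℕ)
    (PP : Finset ℕ) (Z : ℕ → Finset ℕ), 0 < y → 0 ≤ X → FB s v b X y R U j V →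
    2 ≤ b → 1 ≤ R → 0 < P → C * (κ + 1) ≤ z0 →
    (∀ p ∈ PP, p.Prime ∧ z0 < p ∧ p ≤ 2 ^ 2 ^ J) → (∀ p ∈ PP, ¬ p ∣ R * P) →
    (∀ p ∈ PP, Z p ⊆ range p ∧ (Z p).card ≤ κ) →
    (∀ S ∈ s, 0 ≤ v S) → ∀ s₀ : ℤ,
    |(((s.filter (fun S => ((R * P : ℕ) : ℤ) ∣ v S - s₀)).filter
      (fun S => ∀ p ∈ PP, ¬ ∃ z ∈ Z p, (p : ℤ) ∣ v S - z)).card : ℝ) -
      cnt s v (R * P) s₀ * ∏ p ∈ PP, (1 - (Z p).card / (p : ℝ))| ≤
      1 / 2 * (cnt s v (R * P) s₀ * ∏ p ∈ PP, (1 - (Z p).card / (p : ℝ))) +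
      ((J : ℝ) + 2) * (X / P * ∑ f ∈ (PP.powerset.image (fun T => ∏ p ∈ T, p)).filter
        (fun f => f ≤ (2 ^ 2 ^ J) ^ (C * (C * (κ + 1)))),
        wk κ f / f * GG b y U j V P f) := by
  obtain ⟨C, hC, hfund⟩ := fund
  refine ⟨C, hC, ?_⟩
  intro κ b R P J z0 ι s v X y U j V PP Z hy hX hFB hb hR hP hz0 hPP hPPR hZ hpos s₀
  have hPr : (0 : ℝ) < P := by exact_mod_cast hP
  set 𝒜 : Finset ι := s.filter (fun S => ((R * P : ℕ) : ℤ) ∣ v S - s₀) with h𝒜
  set A : ℝ := cnt s v (R * P) s₀ with hA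
  set G : ℕ → ℝ := fun f => GG b y U j V P f with hG
  have hG0 : ∀ f, 0 ≤ G f := fun f => GG_nonneg _ _ hy.le _ _ _ _ _
  set err : Finset ℕ → ℝ := fun T => X / P * (wk κ (∏ p ∈ T, p) / ((∏ p ∈ T, p : ℕ) : ℝ) * G (∏ p ∈ T, p)) with herr
  have hA0 : 0 ≤ A := cnt_nonneg _ _ _ _
  have hmain := hfund κ (C * (κ + 1)) J z0 PP (fun p => (Z p).card / (p : ℝ)) le_rfl hz0 hPP (by
    intro p hp
    have h2 := (hPP p hp).1.two_le
    have h3 : (2 : ℝ) ≤ p := by exact_mod_cast h2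
    refine ⟨by positivity, ?_⟩
    have h4 : ((Z p).card : ℝ) ≤ κ := by exact_mod_cast (hZ p hp).2
    gcongr
    · linarith
    · linarith) ι 𝒜 (fun S => (v S).toNat)
    (fun p m => ∃ z ∈ Z p, (p : ℤ) ∣ (m : ℤ) - z) A err hA0 (by
      intro T hT _
      have hTp : ∀ p ∈ T, p.Prime := fun p hp => (hPP p (hT hp)).1
      set f : ℕ := ∏ p ∈ T, p with hf
      have hf0 : 0 < f := prod_pos fun p hp => (hTp p hp).pos
      have hfr : (0 : ℝ) < f := by exact_mod_cast hf0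
      obtain ⟨L, hL1, hL2, hL3⟩ := classes s v Z T hTp
        (fun p hp => (hZ p (hT hp)).1) (R * P) (Nat.mul_pos hR hP) (fun p hp => hPPR p (hT hp)) s₀
      rw [← hf] at hL3
      have h1 : ((𝒜.filter (fun S => ∀ p ∈ T, ∃ z ∈ Z p, (p : ℤ) ∣ (((v S).toNat : ℕ) : ℤ) - z)).card : ℝ) =
          (L.map (fun s' => cnt s v (R * P * f) s')).sum := by
        rw [← hL3]
        congr 2
        ext S
        rw [mem_filter, h𝒜, mem_filter, mem_filter]
        constructor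
        · rintro ⟨⟨h2, h3⟩, h4⟩
          rw [Int.toNat_of_nonneg (hpos S h2)] at h4
          exact ⟨h2, h3, h4⟩
        · rintro ⟨h2, h3, h4⟩
          rw [Int.toNat_of_nonneg (hpos S h2)]
          exact ⟨⟨h2, h3⟩, h4⟩
      have h2 := multiset_close L (fun s' => cnt s v (R * P * f) s') (A / f)
        (X / ((P * f : ℕ) : ℝ) * G f) (by
          intro s' hs'
          have h3 := cnt_gen s v b X y R P f U j V s' hFB hR hP hf0
          rw [cnt_shift _ _ (R * P) s₀ s' (hL2 s' hs')] at h3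
          exact h3)
      have h4 : A * ∏ p ∈ T, ((Z p).card / (p : ℝ)) = L.card * (A / f) := by
        rw [hL1, hf, prod_div_distrib]
        push_cast
        ring
      have h5 : (L.card : ℝ) * (X / ((P * f : ℕ) : ℝ) * G f) ≤ err T := by
        simp only [herr]
        rw [← hf]
        have h6 : (L.card : ℝ) ≤ wk κ f := by
          unfold wk
          rw [hL1, hf, Nat.primeFactors_prod hTp]
          push_cast
          calc ∏ p ∈ T, ((Z p).card : ℝ) ≤ ∏ _p ∈ T, (κ : ℝ) := by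
                apply Finset.prod_le_prod
                · intro p _
                  positivity
                · intro p hp
                  exact_mod_cast (hZ p (hT hp)).2
            _ = (κ : ℝ) ^ T.card := by rw [prod_const]
        have h7 : X / P * (wk κ f / f * G f) = wk κ f * (X / ((P * f : ℕ) : ℝ) * G f) := by
          push_cast
          field_simp
        rw [h7]
        apply mul_le_mul_of_nonneg_right h6
        have := hG0 f
        positivity
      rw [h4]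
      have h8 := h2.trans h5
      rw [← h1] at h8
      refine le_trans (le_of_eq ?_) h8
      congr!)
  have h10 : ∑ T ∈ PP.powerset.filter (fun T : Finset ℕ => ∏ p ∈ T, p ≤ (2 ^ 2 ^ J) ^ (C * (C * (κ + 1)))), err T =
      X / P * ∑ f ∈ (PP.powerset.image (fun T => ∏ p ∈ T, p)).filter
        (fun f => f ≤ (2 ^ 2 ^ J) ^ (C * (C * (κ + 1)))), wk κ f / f * G f := by
    have hinj : ∀ T ∈ PP.powerset, ∀ T' ∈ PP.powerset, ∏ p ∈ T, p = ∏ p ∈ T', p → T = T' := by
      intro T hT T' hT' h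
      rw [mem_powerset] at hT hT'
      rw [← Nat.primeFactors_prod (fun p hp => (hPP p (hT hp)).1),
        ← Nat.primeFactors_prod (fun p hp => (hPP p (hT' hp)).1), h]
    rw [mul_sum, filter_image, sum_image]
    · intro T hT T' hT' h
      rw [coe_filter] at hT hT'
      exact hinj T hT.1 T' hT'.1 h
  rw [h10] at hmain
  have hb2 : (1 / 2 : ℝ) ^ (C * (κ + 1)) ≤ 1 / 2 := by
    calc (1 / 2 : ℝ) ^ (C * (κ + 1)) ≤ (1 / 2 : ℝ) ^ 1 := by
          apply pow_le_pow_of_le_one (by norm_num) (by norm_num)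
          exact Nat.mul_pos hC (by omega)
      _ = 1 / 2 := by norm_num
  have hprod0 : 0 ≤ ∏ p ∈ PP, (1 - (Z p).card / (p : ℝ)) := by
    apply prod_nonneg
    intro p hp
    have h2 : (2 : ℝ) ≤ p := by exact_mod_cast (hPP p hp).1.two_le
    have h3 : (Z p).card ≤ p := by
      have := card_le_card (hZ p hp).1
      rwa [card_range] at this
    have h4 : ((Z p).card : ℝ) ≤ p := by exact_mod_cast h3
    have : (Z p).card / (p : ℝ) ≤ 1 := by rw [div_le_one (by linarith)]; exact h4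
    linarith
  have h12 : 0 ≤ A * ∏ p ∈ PP, (1 - (Z p).card / (p : ℝ)) := mul_nonneg hA0 hprod0
  have h14 := mul_le_mul_of_nonneg_right hb2 h12
  refine le_trans (le_of_eq ?_) (hmain.trans (add_le_add h14 le_rfl))
  have h15 : (𝒜.filter (fun S => ∀ p ∈ PP, ¬ ∃ z ∈ Z p, (p : ℤ) ∣ v S - z)) =
      (𝒜.filter (fun S => ∀ p ∈ PP, ¬ ∃ z ∈ Z p, (p : ℤ) ∣ (((v S).toNat : ℕ) : ℤ) - z)) := by
    apply filter_congr
    intro S hS
    rw [h𝒜, mem_filter] at hS
    rw [Int.toNat_of_nonneg (hpos S hS.1)]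
  rw [h15]
  congr!

end Pool.Agent.Run7.h620.PX
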